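import Pool.Agent.Helper90.TS.CStmts

/-!
# MP_79eb7e_lc: assembly of the final theorem from the modules
-/

set_option autoImplicit false

namespace Pool.Agent.Helper90.TS

open FirstOrder Language

/-- the context of a monster model exists -/
theorem exists_ctx (h1 : ST_UBOOL) (h2 : ST_UIMG) (h3 : ST_USORT) (h4 : ST_USAT) (h5 : ST_UOST)
    (h6 : ST_USTAB) (h7 : ST_UCODE) (L : FirstOrder.Language.{0, 0}) (C : Type) [L.Structure C]
    (T : Dt L C) : ∃ X : Ctx T.V (AutG L C), X.Df = T.Df := by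
  obtain ⟨b1, b2, b3, b4⟩ := h1 L C T
  obtain ⟨i1, i2, i3, i4⟩ := h2 L C T
  obtain ⟨s1, s2, s3, _⟩ := h3 L C T
  obtain ⟨t1, t2⟩ := h4 L C T
  exact ⟨{ Df := T.Df
           empty := b1
           union := b2
           diff := b3
           smul := b4
           sec := i1
           img := i2
           sub := i3
           prod := i4
           sort := s1
           param := s2
           cnt := s3
           sat := t1
           hom := t2
           ost := h5 L C T
           stab := fun κ ι _ _ => h6 L C T κ ι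
           code := fun ι _ => h7 L C T ι }, rfl⟩

theorem final_asm (hCINV : ST_CINV) (h1 : ST_UBOOL) (h2 : ST_UIMG) (h3 : ST_USORT) (h4 : ST_USAT)
    (h5 : ST_UOST) (h6 : ST_USTAB) (h7 : ST_UCODE) (hUU1 : ST_UU1) (hTRC : ST_TRC)
    (hSML : ST_SML) (hUMOD : ST_UMOD) (hUAHC : ST_UAHC) (hUTOP : ST_UTOP) (hUTRIV : ST_UTRIV)
    (hORB : ST_ORB) (hAHL : ST_AHL) : ST_FINAL := by
  intro L C _ S hM hsm hst Ph hphd hphb hom M hMc Q hQ a haQ hafin hAH n p hp
  have hinv : ∀ (g : AutG L C) i, ∀ x ∈ Ph i, g • x ∈ Ph i := by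
    intro g i x hx
    have := ((hCINV L C (Fin 1) (∅ : Set C) {y | y 0 ∈ Ph i} (hphd i)).1 g
      (by rw [fx_empty]; trivial) (fun _ => x)).2 hx
    exact this
  let T : Dt L C :=
    { S := S
      hM := hM
      small := hsm
      stable := hst
      Ph := Ph
      phdef := hphd
      phbd := hphb
      om := hom
      phinv := hinv }
  have hU0 : T.U0 = ⋃ i, Ph i := rfl
  obtain ⟨X, hX⟩ := exists_ctx h1 h2 h3 h4 h5 h6 h7 L C T
  obtain ⟨u1, u2, u3, u4⟩ := hUU1 L C T
  have hQU : Q ⊆ T.U0 := by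
    rw [hQ]
    exact Set.inter_subset_right
  obtain ⟨N, hNc, hNQ, c, hcN, hpc⟩ := hp
  rcases hTRC L C T n c with htr | ⟨d, hd1, hd2⟩
  · exact hUTRIV L C T Q a hQU n c htr p hpc
  obtain ⟨m1, m2, m3, m4⟩ := hUMOD L C T N hNc
  refine hUTOP L C T Q a N hNc hNQ haQ hafin n c d hcN hd1 hd2 ?_ p hpc
  intro d' hd'
  -- the sets in the context
  set A : Set T.V := {x | (x : C) ∈ a} with hA
  set Q0 : Set T.V := {x | (x : C) ∈ Q} with hQ0
  set Q1 : Set T.V := {x | (x : C) ∈ N} with hQ1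
  set U0 : Set T.V := {x | (x : C) ∈ T.U0} with hU0'
  have hAfin : A.Finite := by
    refine Set.Finite.of_finite_image (f := fun x : T.V => (x : C)) (hafin.subset ?_) ?_
    · rintro _ ⟨x, hx, rfl⟩
      exact hx
    · exact fun x _ y _ h => Subtype.ext h
  have hQ1c : Q1.Countable := by
    have : ((fun x : T.V => (x : C)) '' Q1).Countable := hNc.mono (by
      rintro _ ⟨x, hx, rfl⟩
      exact hx)
    exact Set.countable_of_injective_of_countable_image
      (f := fun x : T.V => (x : C)) (fun x _ y _ h => Subtype.ext h) this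
  have hQN : ∀ x, x ∈ Q ↔ x ∈ N ∧ x ∈ T.U0 := by
    intro x
    rw [← hNQ]
    rfl
  have hQ01 : Q0 ⊆ Q1 := fun x hx => ((hQN _).1 hx).1
  have hAQ1 : A ⊆ Q1 := fun x hx => hQ01 (haQ hx)
  -- enumerations of finite sets
  have hfxA : ∀ g : AutG L C, g ∈ Fx (AutG L C) A ↔ ∀ x ∈ a, g • x = x := by
    intro g
    constructor
    · intro hg x hx
      have := hg ⟨x, u1 (hQU (haQ hx))⟩ hx
      exact congrArg Subtype.val this
    · intro hg x hx
      exact Subtype.ext (hg _ hx)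
  obtain ⟨r, α, hα⟩ : ∃ (r : ℕ) (α : Fin r → C), Set.range α = a := by
    obtain ⟨r, ⟨e⟩⟩ := Finite.exists_equiv_fin a (h := hafin.to_subtype)
    refine ⟨r, fun i => (e.symm i : C), ?_⟩
    ext x
    constructor
    · rintro ⟨i, rfl⟩
      exact (e.symm i).2
    · intro hx
      exact ⟨e ⟨x, hx⟩, by simp⟩
  have haclQ1 : acl (AutG L C) A ⊆ Q1 := by
    intro e he
    refine m2 r α (e : C) ?_ ?_
    · intro i
      have : α i ∈ a := hα ▸ ⟨i, rfl⟩
      exact ((hQN _).1 (haQ this)).1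
    · have : {e' | ∃ g : AutG L C, g • α = α ∧ g • (e : C) = e'} ⊆
          (fun x : T.V => (x : C)) '' {e' | ∃ g ∈ Fx (AutG L C) A, g • e = e'} := by
        rintro _ ⟨g, hg, rfl⟩
        refine ⟨g • e, ⟨g, ?_, rfl⟩, rfl⟩
        rw [hfxA, ← hα]
        rintro _ ⟨i, rfl⟩
        exact congrFun hg i
      exact (he.image _).subset this
  have hlift : ∀ (m : ℕ) (u : Fin m → C), (∀ i, u i ∈ T.UU) →
      ∃ v : Fin m → T.V, ∀ i, (v i : C) = u i := fun m u hu => ⟨fun i => ⟨u i, hu i⟩, fun _ => rfl⟩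
  have hgen : ∀ x ∈ Q1, ∃ (m : ℕ) (u : Fin m → T.V), Set.range u ⊆ Q0 ∧
      ∀ g : AutG L C, g • u = u → g • x = x := by
    intro x hx
    obtain ⟨m, u, hu, hux⟩ := m3 (x : C) hx x.2
    refine ⟨m, fun i => ⟨u i, u1 (hu i).2⟩, ?_, ?_⟩
    · rintro _ ⟨i, rfl⟩
      exact (hQN _).2 (hu i)
    · intro g hg
      apply Subtype.ext
      refine hux g ?_
      ext i
      exact congrArg Subtype.val (congrFun hg i)
  have hcl : ∀ (m : ℕ) (u : Fin m → T.V) (x : T.V), Set.range u ⊆ Q0 →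
      (∀ g : AutG L C, g • u = u → g • x = x) → x ∈ Q1 := by
    intro m u x hu hx
    refine m2 m (fun i => (u i : C)) (x : C) ?_ ?_
    · intro i
      exact hQ01 (hu ⟨i, rfl⟩)
    · refine (Set.finite_singleton (x : C)).subset ?_
      rintro _ ⟨g, hg, rfl⟩
      have : g • u = u := by
        ext i
        exact congrFun hg i
      exact congrArg Subtype.val (hx g this)
  -- homogeneity
  have hHmg : Hmg (AutG L C) Q1 A := by
    refine hAHL T.V (AutG L C) X U0 Q0 Q1 A hQ1c hAfin haclQ1 (fun x hx => hQU hx) hQ01 ?_ ?_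
      hgen hcl ?_ ?_
    · intro g x hx
      obtain ⟨i, hi⟩ := Set.mem_iUnion.1 hx
      exact Set.mem_iUnion.2 ⟨i, hinv g i _ hi⟩
    · intro x hx
      obtain ⟨B, hB0, hBb, hxB, hBU⟩ := u4 Unit (fun _ => (x : C)) (fun _ => hx)
      refine ⟨{y | up y ∈ B}, ?_, hxB, fun y hy => hBU _ hy ()⟩
      have him : im {y : Unit → T.V | up y ∈ B} = B := by
        ext z
        constructor
        · rintro ⟨y, hy, rfl⟩
          exact hy
        · intro hz
          exact ⟨fun i => ⟨z i, u1 (hBU z hz i)⟩, hz, rfl⟩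
      refine ⟨?_, ?_⟩
      · rw [hX]
        refine ⟨?_, B, hB0, hBb, him.le, fun y hy i => u1 (hBU y hy i)⟩
        rw [him]
        exact hB0.mono (Set.empty_subset _)
      · intro g _ y hy
        exact ((hCINV L C Unit ∅ B hB0).1 g (by rw [fx_empty]; trivial) (up y)).2 hy
    · intro m D hD hne hDU
      obtain ⟨x, hx, hxN⟩ := m4 X hX m D hD hne hDU
      exact ⟨x, hx, fun i => (hQN _).2 (hxN i)⟩
    · intro k b b' hb hb' hbb
      exact hUAHC L C T Q a haQ hQU hafin hAH k b b' (fun i => hb ⟨i, rfl⟩) (fun i => hb' ⟨i, rfl⟩)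
        hbb
  have hrd : Set.range d ⊆ Q1 := by
    rintro _ ⟨i, rfl⟩
    refine m2 n c (d i : C) hcN ?_
    refine (Set.finite_singleton (d i : C)).subset ?_
    rintro _ ⟨g, hg, rfl⟩
    exact congrArg Subtype.val (hd1 g hg i)
  -- automorphisms preserving `Q` preserve `dcl Q`
  have hQtr : ∀ g : AutG L C, tr g Q = Q → tr g Q1 = Q1 := by
    have key : ∀ g : AutG L C, tr g Q = Q → tr g Q1 ⊆ Q1 := by
      rintro g hg _ ⟨x, hx, rfl⟩
      obtain ⟨m, u, hu, hux⟩ := hgen x hx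
      refine hcl m (g • u) (g • x) ?_ ?_
      · rintro _ ⟨i, rfl⟩
        have : g • (u i : C) ∈ tr g Q := ⟨_, hu ⟨i, rfl⟩, rfl⟩
        rw [hg] at this
        exact this
      · intro k hk
        have h1 : (g⁻¹ * k * g) • u = u := by
          rw [mul_smul, mul_smul, hk]
          simp
        have h2 := hux _ h1
        rw [mul_smul, mul_smul, inv_smul_eq_iff] at h2
        exact h2
    intro g hg
    refine le_antisymm (key g hg) ?_
    have hg' : tr g⁻¹ Q = Q := by
      ext x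
      rw [mem_tr, inv_inv]
      constructor
      · intro h
        rw [← hg] at h
        rw [mem_tr] at h
        simpa using h
      · intro h
        rw [← hg]
        exact ⟨x, h, rfl⟩
    intro x hx
    rw [mem_tr]
    exact key g⁻¹ hg' ⟨x, hx, rfl⟩
  have hQtr' : ∀ g : AutG L C, tr g Q1 = Q1 → tr g Q = Q := by
    have key : ∀ g : AutG L C, tr g Q1 = Q1 → tr g Q ⊆ Q := by
      rintro g hg _ ⟨x, hx, rfl⟩
      rw [hQN]
      refine ⟨?_, ?_⟩
      · have hx1 : (⟨x, u1 (hQU hx)⟩ : T.V) ∈ Q1 := ((hQN _).1 hx).1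
        have : g • (⟨x, u1 (hQU hx)⟩ : T.V) ∈ tr g Q1 := ⟨_, hx1, rfl⟩
        rw [hg] at this
        exact this
      · obtain ⟨i, hi⟩ := Set.mem_iUnion.1 (hQU hx)
        exact Set.mem_iUnion.2 ⟨i, hinv g i _ hi⟩
    intro g hg
    refine le_antisymm (key g hg) ?_
    have hg' : tr g⁻¹ Q1 = Q1 := by
      ext x
      rw [mem_tr, inv_inv]
      constructor
      · intro h
        rw [← hg] at h
        rw [mem_tr] at h
        simpa using h
      · intro h
        rw [← hg]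
        exact ⟨x, h, rfl⟩
    intro x hx
    rw [mem_tr]
    exact key g⁻¹ hg' ⟨x, hx, rfl⟩
  obtain ⟨g, hg1, hg2, hg3⟩ := hORB T.V (AutG L C) X d d' Q1 A
    (hSML L C T n c d hd1) hQ1c hAfin haclQ1 hrd hHmg (by
      intro m
      obtain ⟨g, ⟨hg1, hg2⟩, hg3⟩ := hd' m
      exact ⟨g, (hfxA g).2 hg2, hQtr g hg1, hg3⟩)
  exact ⟨g, ⟨hQtr' g hg2, (hfxA g).1 hg1⟩, hg3⟩

end Pool.Agent.Helper90.TS
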