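import Pool.Agent.Helper90.TS.Lib

/-!
# MP_79eb7e_lc: statements of the abstract modules (proofs: /team-store/h90_tau.md)
-/

set_option autoImplicit false

namespace Pool.Agent.Helper90.TS

/-! ## A. Morley rank of definable sets -/

/-- TREE: no binary tree of definable sets -/
def ST_TREE : Prop := ∀ (V G : Type) [Group G] [MulAction G V] (X : Ctx V G) (ι : Type) [Finite ι]
  (P : Set (ι → V) → Prop), (∀ D, P D → D ∈ X.Df ι ∧ D.Nonempty ∧
    ∃ E F, E ⊆ D ∧ F ⊆ D ∧ Disjoint E F ∧ P E ∧ P F) → ∀ D, ¬ P D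

/-- RBAS -/
def ST_RBAS : Prop := ∀ (V G : Type) [Group G] [MulAction G V] (X : Ctx V G) (ι : Type) [Finite ι],
  (∀ α (D E : Set (ι → V)), E ∈ X.Df ι → D ⊆ E → X.Rge α D → X.Rge α E) ∧
  (∀ α β (D : Set (ι → V)), β ≤ α → X.Rge α D → X.Rge β D) ∧
  (∀ α (D : Set (ι → V)) (g : G), X.Rge α {x | g • x ∈ D} ↔ X.Rge α D) ∧
  (∀ D : Set (ι → V), X.Rge 0 D ↔ D ∈ X.Df ι ∧ D.Nonempty) ∧
  (∀ α (D : Set (ι → V)), D ∈ X.Df ι → D.Nonempty → (∀ β < α, X.Rge (Order.succ β) D) →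
    X.Rge α D)

/-- RUN: rank of a union -/
def ST_RUN : Prop := ∀ (V G : Type) [Group G] [MulAction G V] (X : Ctx V G) (ι : Type) [Finite ι]
  (α : Ordinal.{0}),
  (∀ D E : Set (ι → V), D ∈ X.Df ι → E ∈ X.Df ι → X.Rge α (D ∪ E) → X.Rge α D ∨ X.Rge α E) ∧
  (∀ (J : Type) [Finite J] (F : J → Set (ι → V)), (∀ j, F j ∈ X.Df ι) → X.Rge α (⋃ j, F j) →
    ∃ j, X.Rge α (F j))

/-- RFIN: every nonempty definable set has a Morley rank -/
def ST_RFIN : Prop := ∀ (V G : Type) [Group G] [MulAction G V] (X : Ctx V G) (ι : Type) [Finite ι]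
  (D : Set (ι → V)), D ∈ X.Df ι → D.Nonempty →
    ∃ ρ : Ordinal.{0}, ∀ α : Ordinal.{0}, X.Rge α D ↔ α ≤ ρ

/-- RDEG: decomposition into sets of degree one -/
def ST_RDEG : Prop := ∀ (V G : Type) [Group G] [MulAction G V] (X : Ctx V G) (ι : Type) [Finite ι]
  (α : Ordinal.{0}) (D : Set (ι → V)), X.Rge α D → ¬ X.Rge (Order.succ α) D →
    ∃ (m : ℕ) (F : Fin m → Set (ι → V)), 0 < m ∧ (∀ i, X.Dg1 α (F i)) ∧ D = ⋃ i, F i ∧
      (∀ i j, i ≠ j → Disjoint (F i) (F j)) ∧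
      ∀ F' : Fin (m + 1) → Set (ι → V), (∀ i, F' i ⊆ D) →
        (∀ i j, i ≠ j → Disjoint (F' i) (F' j)) → ∃ i, ¬ X.Rge α (F' i)

/-! ## B. Types -/

/-- TYPE: types over countable sets are orbits -/
def ST_TYPE : Prop := ∀ (V G : Type) [Group G] [MulAction G V] (X : Ctx V G) (A : Set V),
  A.Countable → ∀ (ι : Type) [Finite ι] (b b' : ι → V),
    (∀ D : Set (ι → V), X.Ov A D → b ∈ D → b' ∈ D) → Eqv G A b b'

/-- TYPS: the same for sequences -/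
def ST_TYPS : Prop := ∀ (V G : Type) [Group G] [MulAction G V] (_ : Ctx V G) (A : Set V),
  A.Countable → ∀ (d d' : ℕ → V),
    (∀ n, Eqv G A (fun i : Fin n => d i) (fun i : Fin n => d' i)) → SqEq G A d d'

/-- FSUP: finite supports -/
def ST_FSUP : Prop := ∀ (V G : Type) [Group G] [MulAction G V] (X : Ctx V G) (A : Set V),
  A.Countable → ∀ (ι : Type) [Finite ι] (D : Set (ι → V)), X.Ov A D →
    ∃ (m : ℕ) (a : Fin m → V) (E : Set (Fin m ⊕ ι → V)), Set.range a ⊆ A ∧ X.Ov (∅ : Set V) E ∧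
      D = {x | Sum.elim a x ∈ E}

/-- FSU2: a set over `A ∪ range b` is a section at `b` of a set over `A` -/
def ST_FSU2 : Prop := ∀ (V G : Type) [Group G] [MulAction G V] (X : Ctx V G) (A : Set V),
  A.Countable → ∀ (κ ι : Type) [Finite κ] [Finite ι] (b : κ → V) (D : Set (ι → V)),
    X.Ov (A ∪ Set.range b) D → ∃ E : Set (κ ⊕ ι → V), X.Ov A E ∧ D = {x | Sum.elim b x ∈ E}

/-- COV: countably many sets over a countable set -/
def ST_COV : Prop := ∀ (V G : Type) [Group G] [MulAction G V] (X : Ctx V G) (A : Set V),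
  A.Countable → ∀ (ι : Type) [Finite ι], {D : Set (ι → V) | X.Ov A D}.Countable

/-- REAL: saturation for types over countable sets -/
def ST_REAL : Prop := ∀ (V G : Type) [Group G] [MulAction G V] (X : Ctx V G) (A : Set V),
  A.Countable → ∀ (ι : Type) [Finite ι] (F : Set (Set (ι → V))), (∀ D ∈ F, X.Ov A D) →
    F.Nonempty → (∀ D ∈ F, ∀ E ∈ F, D ∩ E ∈ F) → (∀ D ∈ F, D.Nonempty) → ∃ x, ∀ D ∈ F, x ∈ D

/-- ISO: isolated types are dense -/
def ST_ISO : Prop := ∀ (V G : Type) [Group G] [MulAction G V] (X : Ctx V G) (B : Set V),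
  B.Countable → ∀ (ι : Type) [Finite ι] (D : Set (ι → V)), X.Ov B D → D.Nonempty →
    ∃ E, E ⊆ D ∧ X.Ov B E ∧ E.Nonempty ∧ ∀ x ∈ E, ∀ y ∈ E, Eqv G B x y

/-- DCLF: definable closure is given by definable partial functions -/
def ST_DCLF : Prop := ∀ (V G : Type) [Group G] [MulAction G V] (X : Ctx V G)
  (κ ι : Type) [Finite κ] [Finite ι] (u : κ → V) (b : ι → V), (∀ g : G, g • u = u → g • b = b) →
    ∃ W : Set (κ ⊕ ι → V), X.Ov (∅ : Set V) W ∧ Sum.elim u b ∈ W ∧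
      ∀ v y y', Sum.elim v y ∈ W → Sum.elim v y' ∈ W → y = y'

/-! ## C. Morley rank of types -/

/-- RKB: basic properties of `rk` -/
def ST_RKB : Prop := ∀ (V G : Type) [Group G] [MulAction G V] (X : Ctx V G) (ι : Type) [Finite ι]
  (b : ι → V),
  (∀ A, ∃ D : Set (ι → V), X.Ov A D ∧ b ∈ D ∧ ∀ α : Ordinal.{0}, X.Rge α D ↔ α ≤ X.rk A b) ∧
  (∀ A (D : Set (ι → V)) α, X.Ov A D → b ∈ D → ¬ X.Rge (Order.succ α) D → X.rk A b ≤ α) ∧
  (∀ A (D : Set (ι → V)), X.Ov A D → b ∈ D → X.Rge (X.rk A b) D) ∧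
  (∀ A B : Set V, A ⊆ B → X.rk B b ≤ X.rk A b) ∧
  (∀ (A : Set V) (g : G), X.rk (tr g A) (g • b) = X.rk A b) ∧
  (∀ A b', Eqv G A b b' → X.rk A b' = X.rk A b)

/-- GEN: generic points -/
def ST_GEN : Prop := ∀ (V G : Type) [Group G] [MulAction G V] (X : Ctx V G) (C : Set V),
  C.Countable → ∀ (ι : Type) [Finite ι] (α : Ordinal.{0}) (D : Set (ι → V)), X.Ov C D →
    X.Rge α D → ¬ X.Rge (Order.succ α) D → ∃ x ∈ D, X.rk C x = α

/-- RKL: local character -/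
def ST_RKL : Prop := ∀ (V G : Type) [Group G] [MulAction G V] (X : Ctx V G) (A : Set V),
  A.Countable → ∀ (ι : Type) [Finite ι] (b : ι → V), ∃ A0, A0 ⊆ A ∧ A0.Finite ∧
    X.rk A0 b = X.rk A b

/-- UNID: types are isolated by rank and a definable set -/
def ST_UNID : Prop := ∀ (V G : Type) [Group G] [MulAction G V] (X : Ctx V G) (A : Set V),
  A.Countable → ∀ (ι : Type) [Finite ι] (b : ι → V), ∃ D : Set (ι → V), X.Ov A D ∧ b ∈ D ∧
    (∀ α : Ordinal.{0}, X.Rge α D ↔ α ≤ X.rk A b) ∧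
    ∀ b' ∈ D, X.rk A b' = X.rk A b → Eqv G A b b'

/-- EXT: nonforking extensions of types -/
def ST_EXT : Prop := ∀ (V G : Type) [Group G] [MulAction G V] (X : Ctx V G) (A C : Set V),
  C.Countable → A ⊆ C → ∀ (ι : Type) [Finite ι] (b : ι → V), ∃ b', Eqv G A b b' ∧
    X.rk C b' = X.rk A b

/-- UNI: uniqueness of nonforking extensions of stationary types -/
def ST_UNI : Prop := ∀ (V G : Type) [Group G] [MulAction G V] (X : Ctx V G) (A C : Set V),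
  C.Countable → A ⊆ C → ∀ (ι : Type) [Finite ι] (b b' b'' : ι → V), Sta X A b → Eqv G A b b' →
    Eqv G A b b'' → X.rk C b' = X.rk A b → X.rk C b'' = X.rk A b → Eqv G C b' b''

/-- SATM: existence of saturated countable sets -/
def ST_SATM : Prop := ∀ (V G : Type) [Group G] [MulAction G V] (_ : Ctx V G) (A : Set V),
  A.Countable → ∃ M, A ⊆ M ∧ Sat G M

/-- DGM: types over saturated sets are stationary -/
def ST_DGM : Prop := ∀ (V G : Type) [Group G] [MulAction G V] (X : Ctx V G) (M : Set V),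
  Sat G M → ∀ (ι : Type) [Finite ι] (b : ι → V), Sta X M b

/-- DEF: definability of rank -/
def ST_DEF : Prop := ∀ (V G : Type) [Group G] [MulAction G V] (X : Ctx V G)
  (κ ι : Type) [Finite κ] [Finite ι] (α : Ordinal.{0}) (D : Set (ι → V)) (E : Set (κ ⊕ ι → V)),
  D ∈ X.Df ι → ¬ X.Rge (Order.succ α) D → E ∈ X.Df (κ ⊕ ι) →
    {z : κ → V | X.Rge α (D ∩ {x | Sum.elim z x ∈ E})} ∈ X.Df κ

/-- SYMM: symmetry over saturated sets -/
def ST_SYMM : Prop := ∀ (V G : Type) [Group G] [MulAction G V] (X : Ctx V G) (M : Set V),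
  Sat G M → ∀ (κ ι : Type) [Finite κ] [Finite ι] (b : κ → V) (c : ι → V),
    X.rk (M ∪ Set.range c) b = X.rk M b → X.rk (M ∪ Set.range b) c = X.rk M c

/-- SYM: symmetry -/
def ST_SYM : Prop := ∀ (V G : Type) [Group G] [MulAction G V] (X : Ctx V G) (A : Set V),
  A.Countable → ∀ (κ ι : Type) [Finite κ] [Finite ι] (b : κ → V) (c : ι → V),
    X.rk (A ∪ Set.range c) b = X.rk A b → X.rk (A ∪ Set.range b) c = X.rk A c

/-- CALC: the calculus of independence -/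
def ST_CALC : Prop := ∀ (V G : Type) [Group G] [MulAction G V] (X : Ctx V G) (A B C D : Set V),
  A.Countable → B.Countable → C.Countable → D.Countable →
  (SI X A B C → SI X A C B) ∧
  (SI X A B (C ∪ D) ↔ SI X A B C ∧ SI X (A ∪ C) B D) ∧
  (SI X A (B ∪ D) C ↔ SI X A B C ∧ SI X (A ∪ B) D C) ∧
  ((∀ B0 C0 : Set V, B0 ⊆ B → C0 ⊆ C → B0.Finite → C0.Finite → SI X A B0 C0) → SI X A B C) ∧
  (∀ (ι : Type) [Finite ι] (b : ι → V), X.rk (A ∪ C) b = X.rk A b ↔ SI X A (Set.range b) C) ∧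
  (∀ g : G, SI X (tr g A) (tr g B) (tr g C) ↔ SI X A B C)

/-- EXTS: nonforking extensions of types of countable sets -/
def ST_EXTS : Prop := ∀ (V G : Type) [Group G] [MulAction G V] (X : Ctx V G) (A B C : Set V),
  A.Countable → B.Countable → C.Countable → ∃ g ∈ Fx G A, SI X A (tr g B) C

/-- ACLB: algebraic closure, basic facts -/
def ST_ACLB : Prop := ∀ (V G : Type) [Group G] [MulAction G V] (X : Ctx V G) (A : Set V),
  A.Countable →
  A ⊆ acl G A ∧ (acl G A).Countable ∧ (∀ B, A ⊆ B → acl G A ⊆ acl G B) ∧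
  (∀ g : G, acl G (tr g A) = tr g (acl G A)) ∧ (acl G (acl G A) = acl G A) ∧
  (∀ (E : Set V) (ι : Type) [Finite ι] (b : ι → V), E ⊆ acl G A → X.rk (A ∪ E) b = X.rk A b) ∧
  (∀ (κ : Type) [Finite κ] (e : κ → V), Set.range e ⊆ acl G A →
    {e' | ∃ g ∈ Fx G A, g • e = e'}.Finite)

/-- ACLS: algebraic closure and independence -/
def ST_ACLS : Prop := ∀ (V G : Type) [Group G] [MulAction G V] (X : Ctx V G) (A B C : Set V),
  A.Countable → B.Countable → C.Countable →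
  (∀ E : Set V, E ⊆ acl G A → (SI X (A ∪ E) B C ↔ SI X A B C)) ∧
  (SI X A B C → SI X A (acl G (A ∪ B)) C)

/-- STAT: types are stationary over finitely many algebraic elements -/
def ST_STAT : Prop := ∀ (V G : Type) [Group G] [MulAction G V] (X : Ctx V G) (A : Set V),
  A.Countable → ∀ (ι : Type) [Finite ι] (b : ι → V), ∃ e : Set V, e ⊆ acl G A ∧ e.Finite ∧
    Sta X (A ∪ e) b

/-! ## D. The main lemma -/

/-- DAT1 -/
def ST_DAT1 : Prop := ∀ (V G : Type) [Group G] [MulAction G V] (X : Ctx V G) (A : Set V),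
  A.Finite → ∀ (ι : Type) [Finite ι] (b : ι → V) (d : ℕ → V),
    (∀ n, ∃ b', Eqv G (A ∪ ini d n) b b' ∧ ¬ Eqv G (A ∪ Set.range d) b b') →
    ∃ (A' : Set V) (b' : ι → V), Dat X A' b' d

/-- DAT2: if all completions are independent there is a `Dat` of smaller rank -/
def ST_DAT2 : Prop := ∀ (V G : Type) [Group G] [MulAction G V] (X : Ctx V G) (A : Set V)
  (ι : Type) [Finite ι] (b : ι → V) (d d0 d1 : ℕ → V) (n : ℕ), Dat X A b d →
    (∃ b', Eqv G A b b' ∧ X.rk (A ∪ ini d n) b' = X.rk A b ∧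
      X.rk (A ∪ Set.range d) b' ≠ X.rk A b) →
    SqEq G A d d0 → SqEq G A d d1 →
    (∀ δ0 δ1, SqEq G (A ∪ ini d0 n) d0 δ0 → SqEq G (A ∪ ini d1 n) d1 δ1 →
      SI X (A ∪ (ini d0 n ∪ ini d1 n)) (Set.range δ0) (Set.range δ1)) →
    ∃ (A' : Set V) (b' : ι → V) (d' : ℕ → V), SqEq G A d d' ∧ Dat X A' b' d' ∧
      X.rk A' b' < X.rk A b

/-- LP: the main lemma -/
def ST_LP : Prop := ∀ (V G : Type) [Group G] [MulAction G V] (_ : Ctx V G) (d : ℕ → V),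
  Small G d → ∀ A : Set V, A.Finite → ∀ (ι : Type) [Finite ι] (b : ι → V),
    ∃ n, ∀ b', Eqv G (A ∪ ini d n) b b' → Eqv G (A ∪ Set.range d) b b'

/-- LPP: the same with algebraic elements -/
def ST_LPP : Prop := ∀ (V G : Type) [Group G] [MulAction G V] (_ : Ctx V G) (d : ℕ → V),
  Small G d → ∀ A : Set V, A.Finite → ∀ (ι : Type) [Finite ι] (b : ι → V),
    ∃ (n : ℕ) (e : Set V), e ⊆ acl G A ∧ e.Finite ∧
      ∀ b', Eqv G (A ∪ e ∪ ini d n) b b' → Eqv G (acl G A ∪ Set.range d) b b'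

/-- approximations of `h` on `d` and `acl A` by automorphisms preserving `Q` -/
def Apx (G : Type) {V : Type} [Group G] [MulAction G V] (Q A : Set V) (d : ℕ → V) (h : G) : Prop :=
  ∀ (n : ℕ) (e : Set V), e ⊆ acl G A → e.Finite → ∃ g ∈ Fx G A, tr g Q = Q ∧
    (∀ i < n, g • d i = h • d i) ∧ ∀ x ∈ e, g • x = h • x

/-- homogeneity of `Q` over `acl A` -/
def Hmg (G : Type) {V : Type} [Group G] [MulAction G V] (Q A : Set V) : Prop :=
  ∀ (k : ℕ) (b b' : Fin k → V), Set.range b ⊆ Q → Set.range b' ⊆ Q → Eqv G (acl G A) b b' →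
    ∃ g ∈ Fx G A, tr g Q = Q ∧ g • b = b'

/-- INIT: the limit of the approximations on `acl A` -/
def ST_INIT : Prop := ∀ (V G : Type) [Group G] [MulAction G V] (_ : Ctx V G) (d d' : ℕ → V)
  (Q A : Set V), A.Finite →
    (∀ n, ∃ g ∈ Fx G A, tr g Q = Q ∧ ∀ i < n, g • d i = d' i) →
    ∃ h ∈ Fx G A, (∀ i, h • d i = d' i) ∧ Apx G Q A d h

/-- FORTH -/
def ST_FORTH : Prop := ∀ (V G : Type) [Group G] [MulAction G V] (_ : Ctx V G) (d : ℕ → V)
  (Q A : Set V) (h : G), Small G d → A.Finite → acl G A ⊆ Q → Set.range d ⊆ Q → h ∈ Fx G A →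
    (∀ i, h • d i ∈ Q) → Hmg G Q A → Apx G Q A d h → ∀ (k : ℕ) (b : Fin k → V) (x : V),
      Set.range b ⊆ Q → Set.range (h • b) ⊆ Q → x ∈ Q →
      ∃ h' ∈ Fx G A, (∀ i, h' • d i = h • d i) ∧ (∀ e ∈ acl G A, h' • e = h • e) ∧
        h' • b = h • b ∧ h' • x ∈ Q

/-- ORB: orbits are closed -/
def ST_ORB : Prop := ∀ (V G : Type) [Group G] [MulAction G V] (_ : Ctx V G) (d d' : ℕ → V)
  (Q A : Set V), Small G d → Q.Countable → A.Finite → acl G A ⊆ Q → Set.range d ⊆ Q →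
    Hmg G Q A → (∀ n, ∃ g ∈ Fx G A, tr g Q = Q ∧ ∀ i < n, g • d i = d' i) →
    ∃ g ∈ Fx G A, tr g Q = Q ∧ ∀ i, g • d i = d' i

/-- AHL: homogeneity of `Q = dcl Q0` from that of `Q0` -/
def ST_AHL : Prop := ∀ (V G : Type) [Group G] [MulAction G V] (X : Ctx V G) (U0 Q0 Q A : Set V),
  Q.Countable → A.Finite → acl G A ⊆ Q → Q0 ⊆ U0 → Q0 ⊆ Q →
    (∀ (g : G), ∀ x ∈ U0, g • x ∈ U0) →
    (∀ x ∈ U0, ∃ B : Set (Unit → V), X.Ov (∅ : Set V) B ∧ (fun _ => x) ∈ B ∧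
      ∀ y ∈ B, y () ∈ U0) →
    (∀ x ∈ Q, ∃ (m : ℕ) (u : Fin m → V), Set.range u ⊆ Q0 ∧ ∀ g : G, g • u = u → g • x = x) →
    (∀ (m : ℕ) (u : Fin m → V) (x : V), Set.range u ⊆ Q0 → (∀ g : G, g • u = u → g • x = x) →
      x ∈ Q) →
    (∀ (m : ℕ) (D : Set (Fin m → V)), X.Ov Q D → D.Nonempty → (∀ x ∈ D, ∀ i, x i ∈ U0) →
      ∃ x ∈ D, ∀ i, x i ∈ Q0) →
    (∀ (k : ℕ) (b b' : Fin k → V), Set.range b ⊆ Q0 → Set.range b' ⊆ Q0 →
      Eqv G (acl G A) b b' → ∃ g ∈ Fx G A, tr g Q0 = Q0 ∧ g • b = b') →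
    Hmg G Q A

end Pool.Agent.Helper90.TS
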