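import Pool.Agent.Helper90.TS.CDefs
import Pool.Agent.Helper90.TS.Stmts

/-!
# MP_79eb7e_lc: statements of the concrete modules (proofs: /team-store/h90_tau.md)
-/

set_option autoImplicit false

namespace Pool.Agent.Helper90.TS

open FirstOrder Language

/-! ## E. Model theory of the monster model -/

/-- EM: Erdos-Makkai -/
def ST_EM : Prop := ∀ (B : Type) [Countable B] (F : Set (Set B)), ¬ F.Countable →
  ∃ (b : ℕ → B) (s : ℕ → Set B), (∀ i, s i ∈ F) ∧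
    ((∀ i j, b i ∈ s j ↔ i < j) ∨ ∀ i j, b i ∈ s j ↔ j < i)

/-- CINV: automorphisms preserve definable sets -/
def ST_CINV : Prop := ∀ (L : FirstOrder.Language.{0, 0}) (C : Type) [L.Structure C] (ι : Type)
  (A : Set C) (D : Set (ι → C)), A.Definable L D →
    (∀ g ∈ Fx (AutG L C) A, ∀ x, g • x ∈ D ↔ x ∈ D) ∧
    (∀ g : AutG L C, (tr g⁻¹ A).Definable L {x | g • x ∈ D})

/-- CPAR: parameters -/
def ST_CPAR : Prop := ∀ (L : FirstOrder.Language.{0, 0}) (C : Type) [L.Structure C] (ι : Type)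
  [Finite ι] (A : Set C) (D : Set (ι → C)), A.Definable L D ↔
    ∃ (m : ℕ) (a : Fin m → C) (E : Set (Fin m ⊕ ι → C)), Set.range a ⊆ A ∧ Z0 L E ∧
      D = {x | Sum.elim a x ∈ E}

/-- CCNT: countably many definable sets over a countable set -/
def ST_CCNT : Prop := ∀ (L : FirstOrder.Language.{0, 0}) (C : Type) [L.Structure C] (ι : Type)
  [Finite ι] (A : Set C), Countable L.Symbols → A.Countable →
    {D : Set (ι → C) | A.Definable L D}.Countable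

/-- CTYPE: types over countable sets are orbits -/
def ST_CTYPE : Prop := ∀ (L : FirstOrder.Language.{0, 0}) (C : Type) [L.Structure C]
  (S : ℕ → Set C), Monster L C S → ∀ (ι : Type) [Finite ι] (A : Set C), A.Countable →
    ∀ b b' : ι → C, (∀ D : Set (ι → C), A.Definable L D → b ∈ D → b' ∈ D) →
      ∃ g ∈ Fx (AutG L C) A, g • b = b'

/-- CSAT: saturation for bounded families -/
def ST_CSAT : Prop := ∀ (L : FirstOrder.Language.{0, 0}) (C : Type) [L.Structure C]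
  (S : ℕ → Set C), Monster L C S → ∀ (ι : Type) [Finite ι] (F : ℕ → Set (ι → C)),
    (∀ i, (Set.univ : Set C).Definable L (F i)) → Bdd S (F 0) →
    (∀ k, ∃ x, ∀ i < k, x ∈ F i) → ∃ x, ∀ i, x ∈ F i

/-- CINVD: bounded definable sets invariant over `A` are definable over `A` -/
def ST_CINVD : Prop := ∀ (L : FirstOrder.Language.{0, 0}) (C : Type) [L.Structure C]
  (S : ℕ → Set C), Monster L C S → ∀ (ι : Type) [Finite ι] (A : Set C), A.Countable →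
    ∀ D : Set (ι → C), (Set.univ : Set C).Definable L D → Bdd S D → Inv (Fx (AutG L C) A) D →
      A.Definable L D

/-- CTV: Tarski-Vaught -/
def ST_CTV : Prop := ∀ (L : FirstOrder.Language.{0, 0}) (C : Type) [L.Structure C] (ι : Type)
  [Finite ι] (N : L.ElementarySubstructure C) (D : Set (ι → C)), (N : Set C).Definable L D →
    D.Nonempty → ∃ x ∈ D, ∀ i, x i ∈ N

/-- local 2-rank at least `k` with respect to `E`, parameters in `B` -/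
def LR {C κ μ : Type} (B : Set (κ → C)) (E : Set (μ ⊕ κ → C)) : ℕ → Set (μ → C) → Prop
  | 0, K => K.Nonempty
  | k + 1, K => ∃ y ∈ B, LR B E k (K ∩ {x | Sum.elim x y ∈ E}) ∧
      LR B E k (K \ {x | Sum.elim x y ∈ E})

/-- CLRF: the local rank is finite -/
def ST_CLRF : Prop := ∀ (L : FirstOrder.Language.{0, 0}) (C : Type) [L.Structure C]
  (S : ℕ → Set C), Monster L C S → StableTh L C S → ∀ (κ μ : Type) [Finite κ] [Finite μ]
  (B : Set (κ → C)) (E : Set (μ ⊕ κ → C)) (K : Set (μ → C)), Z0 L B → Bdd S B → Z0 L E →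
    (Set.univ : Set C).Definable L K → Bdd S K → ∃ k, ¬ LR B E k K

/-- CLRD: the local rank is definable -/
def ST_CLRD : Prop := ∀ (L : FirstOrder.Language.{0, 0}) (C : Type) [L.Structure C]
  (ν κ μ : Type) [Finite ν] [Finite κ] [Finite μ] (A : Set C) (B : Set (κ → C))
  (E : Set (μ ⊕ κ → C)) (W : Set (ν ⊕ μ → C)), A.Definable L B → A.Definable L E →
    A.Definable L W → ∀ k, A.Definable L {z : ν → C | LR B E k {x | Sum.elim z x ∈ W}}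

/-- CSEMB: stable embeddedness -/
def ST_CSEMB : Prop := ∀ (L : FirstOrder.Language.{0, 0}) (C : Type) [L.Structure C]
  (S : ℕ → Set C), Monster L C S → StableTh L C S → ∀ (κ μ : Type) [Finite κ] [Finite μ]
  (B : Set (κ → C)) (E : Set (μ ⊕ κ → C)) (c : μ → C), Z0 L B → Bdd S B → Z0 L E →
    ({y | ∃ x ∈ B, ∃ i, x i = y} : Set C).Definable L {x | x ∈ B ∧ Sum.elim c x ∈ E}

/-- RHO: elements of `dcl(c)` are definable from `c` -/
def ST_RHO : Prop := ∀ (L : FirstOrder.Language.{0, 0}) (C : Type) [L.Structure C]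
  (S : ℕ → Set C), Monster L C S → ∀ (μ : Type) [Finite μ] (c : μ → C) (e : C),
    (∀ g : AutG L C, g • c = c → g • e = e) →
    ∃ R : Set (μ ⊕ Unit → C), Z0 L R ∧
      ∀ (g : AutG L C) (v : Unit → C), Sum.elim (g • c) v ∈ R ↔ v = fun _ => g • e

/-! ## F. The context of `dcl(Φ(C))` -/

/-- UU1: basic facts on `dcl(Φ(C))` -/
def ST_UU1 : Prop := ∀ (L : FirstOrder.Language.{0, 0}) (C : Type) [L.Structure C] (T : Dt L C),
  T.U0 ⊆ (T.UU : Set C) ∧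
  (∀ (m : ℕ) (u : Fin m → C) (e : C), (∀ i, u i ∈ T.UU) →
    (∀ g : AutG L C, g • u = u → g • e = e) → e ∈ T.UU) ∧
  (∀ (ι : Type) [Finite ι] (x : ι → C), (∀ i, x i ∈ T.UU) →
    ∃ B : Set (ι → C), Z0 L B ∧ Bdd T.S B ∧ x ∈ B ∧ ∀ y ∈ B, ∀ i, y i ∈ T.UU) ∧
  (∀ (ι : Type) [Finite ι] (x : ι → C), (∀ i, x i ∈ T.U0) →
    ∃ B : Set (ι → C), Z0 L B ∧ Bdd T.S B ∧ x ∈ B ∧ ∀ y ∈ B, ∀ i, y i ∈ T.U0)

/-- UBOOL -/
def ST_UBOOL : Prop := ∀ (L : FirstOrder.Language.{0, 0}) (C : Type) [L.Structure C] (T : Dt L C),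
  (∀ (ι : Type) [Finite ι], (∅ : Set (ι → T.V)) ∈ T.Df ι) ∧
  (∀ (ι : Type) [Finite ι], ∀ D ∈ T.Df ι, ∀ E ∈ T.Df ι, D ∪ E ∈ T.Df ι) ∧
  (∀ (ι : Type) [Finite ι], ∀ D ∈ T.Df ι, ∀ E ∈ T.Df ι, D \ E ∈ T.Df ι) ∧
  (∀ (ι : Type) [Finite ι], ∀ D ∈ T.Df ι, ∀ g : AutG L C, {x | g • x ∈ D} ∈ T.Df ι)

/-- UIMG -/
def ST_UIMG : Prop := ∀ (L : FirstOrder.Language.{0, 0}) (C : Type) [L.Structure C] (T : Dt L C),
  (∀ (κ ι : Type) [Finite κ] [Finite ι], ∀ D ∈ T.Df (κ ⊕ ι), ∀ a : κ → T.V,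
    {x | Sum.elim a x ∈ D} ∈ T.Df ι) ∧
  (∀ (κ ι : Type) [Finite κ] [Finite ι] (σ : κ → ι), ∀ D ∈ T.Df ι,
    {y : κ → T.V | ∃ x ∈ D, y = x ∘ σ} ∈ T.Df κ) ∧
  (∀ (κ ι : Type) [Finite κ] [Finite ι] (σ : κ → ι), ∀ D ∈ T.Df κ, ∀ B ∈ T.Df ι,
    {x | x ∈ B ∧ x ∘ σ ∈ D} ∈ T.Df ι) ∧
  (∀ (κ ι : Type) [Finite κ] [Finite ι], ∀ D ∈ T.Df κ, ∀ E ∈ T.Df ι,
    {x : κ ⊕ ι → T.V | x ∘ Sum.inl ∈ D ∧ x ∘ Sum.inr ∈ E} ∈ T.Df (κ ⊕ ι))

/-- USORT -/
def ST_USORT : Prop := ∀ (L : FirstOrder.Language.{0, 0}) (C : Type) [L.Structure C] (T : Dt L C),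
  (∀ (ι : Type) [Finite ι] (x : ι → T.V), ∃ D ∈ T.Df ι, Inv (⊤ : Subgroup (AutG L C)) D ∧ x ∈ D) ∧
  (∀ (ι : Type) [Finite ι], ∀ D ∈ T.Df ι, ∃ (m : ℕ) (E : Set (Fin m ⊕ ι → T.V)) (u : Fin m → T.V),
    E ∈ T.Df (Fin m ⊕ ι) ∧ Inv (⊤ : Subgroup (AutG L C)) E ∧ D = {x | Sum.elim u x ∈ E}) ∧
  (∀ (ι : Type) [Finite ι], {D | D ∈ T.Df ι ∧ Inv (⊤ : Subgroup (AutG L C)) D}.Countable) ∧
  (∀ (ι : Type) [Finite ι] (D : Set (ι → T.V)), D ∈ T.Df ι → Inv (⊤ : Subgroup (AutG L C)) D →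
    Z0 L (im D))

/-- USAT -/
def ST_USAT : Prop := ∀ (L : FirstOrder.Language.{0, 0}) (C : Type) [L.Structure C] (T : Dt L C),
  (∀ (ι : Type) [Finite ι] (F : ℕ → Set (ι → T.V)), (∀ i, F i ∈ T.Df ι) →
    (∀ k, ∃ x, ∀ i < k, x ∈ F i) → ∃ x, ∀ i, x ∈ F i) ∧
  (∀ a b : ℕ → T.V, (∀ n, ∀ D ∈ T.Df (Fin n), Inv (⊤ : Subgroup (AutG L C)) D →
      ((fun i : Fin n => a i) ∈ D ↔ (fun i : Fin n => b i) ∈ D)) →
    ∃ g : AutG L C, ∀ i, g • a i = b i)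

/-- UOST -/
def ST_UOST : Prop := ∀ (L : FirstOrder.Language.{0, 0}) (C : Type) [L.Structure C] (T : Dt L C)
  (A : Set T.V), A.Countable → ∀ n : ℕ, ∃ R : Set (Fin n → T.V), R.Countable ∧
    ∀ x, ∃ y ∈ R, ∃ g ∈ Fx (AutG L C) A, g • y = x

/-- USTAB -/
def ST_USTAB : Prop := ∀ (L : FirstOrder.Language.{0, 0}) (C : Type) [L.Structure C] (T : Dt L C)
  (κ ι : Type) [Finite κ] [Finite ι], ∀ D ∈ T.Df (κ ⊕ ι),
    ¬ ∃ (a : ℕ → κ → T.V) (b : ℕ → ι → T.V), ∀ i j, Sum.elim (a i) (b j) ∈ D ↔ i < j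

/-- UCODE -/
def ST_UCODE : Prop := ∀ (L : FirstOrder.Language.{0, 0}) (C : Type) [L.Structure C] (T : Dt L C)
  (ι : Type) [Finite ι], ∀ D ∈ T.Df ι, ∃ (k : ℕ) (e : Fin k → T.V),
    ∀ g : AutG L C, (∀ x, g • x ∈ D ↔ x ∈ D) ↔ g • e = e

/-! ## G. Traces and good types -/

/-- `c` and `g • c` have the same type over `dcl(Φ(C))` -/
def SameTr {L : FirstOrder.Language.{0, 0}} {C : Type} [L.Structure C] (T : Dt L C) {n : ℕ}
    (c : Fin n → C) (g : AutG L C) : Prop :=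
  ∀ (k : ℕ) (E : Set (Fin n ⊕ Fin k → C)) (u : Fin k → C), Z0 L E → (∀ i, u i ∈ T.UU) →
    (Sum.elim (g • c) u ∈ E ↔ Sum.elim c u ∈ E)

/-- TRC: the trace of `c` on `dcl(Φ(C))` -/
def ST_TRC : Prop := ∀ (L : FirstOrder.Language.{0, 0}) (C : Type) [L.Structure C] (T : Dt L C)
  (n : ℕ) (c : Fin n → C), (∀ g : AutG L C, SameTr T c g) ∨
    ∃ d : ℕ → T.V, (∀ g : AutG L C, g • c = c → ∀ i, g • d i = d i) ∧
      ∀ g : AutG L C, (∀ i, g • d i = d i) → SameTr T c g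

/-- SML: traces are small -/
def ST_SML : Prop := ∀ (L : FirstOrder.Language.{0, 0}) (C : Type) [L.Structure C] (T : Dt L C)
  (n : ℕ) (c : Fin n → C) (d : ℕ → T.V),
    (∀ g : AutG L C, g • c = c → ∀ i, g • d i = d i) → Small (AutG L C) d

/-- UMOD: elementary substructures -/
def ST_UMOD : Prop := ∀ (L : FirstOrder.Language.{0, 0}) (C : Type) [L.Structure C] (T : Dt L C)
  (N : L.ElementarySubstructure C), (N : Set C).Countable →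
    (∀ e : C, (∃ D : Set (Unit → C), (N : Set C).Definable L D ∧ D.Finite ∧ (fun _ => e) ∈ D) →
      e ∈ N) ∧
    (∀ (m : ℕ) (u : Fin m → C) (e : C), (∀ i, u i ∈ N) →
      {e' | ∃ g : AutG L C, g • u = u ∧ g • e = e'}.Finite → e ∈ N) ∧
    (∀ e : C, e ∈ N → e ∈ T.UU → ∃ (m : ℕ) (u : Fin m → C), (∀ i, u i ∈ N ∧ u i ∈ T.U0) ∧
      ∀ g : AutG L C, g • u = u → g • e = e) ∧
    (∀ (X : Ctx T.V (AutG L C)), X.Df = T.Df → ∀ (m : ℕ) (D : Set (Fin m → T.V)),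
      X.Ov {x : T.V | (x : C) ∈ N} D → D.Nonempty → (∀ x ∈ D, ∀ i, (x i : C) ∈ T.U0) →
      ∃ x ∈ D, ∀ i, (x i : C) ∈ N ∧ (x i : C) ∈ T.U0)

/-- UAHC: almost homogeneity in the context -/
def ST_UAHC : Prop := ∀ (L : FirstOrder.Language.{0, 0}) (C : Type) [L.Structure C] (T : Dt L C)
  (Q a : Set C), a ⊆ Q → Q ⊆ T.U0 → a.Finite → AlmostHom L Q a →
    ∀ (k : ℕ) (b b' : Fin k → T.V), (∀ i, (b i : C) ∈ Q) → (∀ i, (b' i : C) ∈ Q) →
      Eqv (AutG L C) (acl (AutG L C) {x : T.V | (x : C) ∈ a}) b b' →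
      ∃ g ∈ Fx (AutG L C) {x : T.V | (x : C) ∈ a},
        tr g {x : T.V | (x : C) ∈ Q} = {x : T.V | (x : C) ∈ Q} ∧ g • b = b'

/-- `g ∈ Aut(Q/a)` -/
def GQ {L : FirstOrder.Language.{0, 0}} {C : Type} [L.Structure C] (Q a : Set C) (g : AutG L C) :
    Prop := tr g Q = Q ∧ ∀ x ∈ a, g • x = x

/-- UTOP: the topological argument -/
def ST_UTOP : Prop := ∀ (L : FirstOrder.Language.{0, 0}) (C : Type) [L.Structure C] (T : Dt L C)
  (Q a : Set C) (N : L.ElementarySubstructure C), (N : Set C).Countable →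
    (N : Set C) ∩ T.U0 = Q → a ⊆ Q → a.Finite →
    ∀ (n : ℕ) (c : Fin n → C) (d : ℕ → T.V), (∀ i, c i ∈ N) →
    (∀ g : AutG L C, g • c = c → ∀ i, g • d i = d i) →
    (∀ g : AutG L C, (∀ i, g • d i = d i) → SameTr T c g) →
    (∀ d' : ℕ → T.V, (∀ m, ∃ g : AutG L C, GQ Q a g ∧ ∀ i < m, g • d i = d' i) →
      ∃ g : AutG L C, GQ Q a g ∧ ∀ i, g • d i = d' i) →
    ∀ p : Typ L Q n, p.1 = tp L Q c → TauBased L a p

/-- UTRIV: the case of a trivial trace -/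
def ST_UTRIV : Prop := ∀ (L : FirstOrder.Language.{0, 0}) (C : Type) [L.Structure C] (T : Dt L C)
  (Q a : Set C), Q ⊆ T.U0 → ∀ (n : ℕ) (c : Fin n → C), (∀ g : AutG L C, SameTr T c g) →
    ∀ p : Typ L Q n, p.1 = tp L Q c → TauBased L a p

end Pool.Agent.Helper90.TS
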