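import Pool.Agent.Helper90.TS.CStmts

set_option autoImplicit false

namespace Pool.Agent.Helper90.TS

open FirstOrder Language

theorem st_CCNT : ST_CCNT := by
  intro L C _ ι _ A hL hA
  haveI := hA.to_subtype
  have : {D : Set (ι → C) | A.Definable L D} =
      Set.range (fun φ : L[[A]].Formula ι => Set.ofPred φ.Realize) := by
    ext D
    constructor
    · rintro ⟨φ, rfl⟩
      exact ⟨φ, rfl⟩
    · rintro ⟨φ, rfl⟩
      exact ⟨φ, rfl⟩
  rw [this]
  exact Set.countable_range _

end Pool.Agent.Helper90.TS
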