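import Pool.Agent.Helper90.TS.CStmts

set_option autoImplicit false

namespace Pool.Agent.Helper90.TS

open FirstOrder Language

theorem cinv_realize {L : FirstOrder.Language.{0, 0}} {C : Type} [L.Structure C] (g : AutG L C)
    {α : Type} (φ : L.Formula α) (v : α → C) : φ.Realize (g • v) ↔ φ.Realize v := by
  obtain ⟨f, hf⟩ := AutG.toEquiv g
  have : g • v = f ∘ v := by
    ext i
    exact (hf (v i)).symm
  rw [this]
  exact StrongHomClass.realize_formula f φ

theorem st_CINV : ST_CINV := by
  intro L C _ ι A D hD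
  rw [Set.definable_iff_exists_formula_sum] at hD
  obtain ⟨φ, rfl⟩ := hD
  refine ⟨?_, ?_⟩
  · intro g hg x
    show φ.Realize (Sum.elim (fun a : A => (a : C)) (g • x)) ↔
      φ.Realize (Sum.elim (fun a : A => (a : C)) x)
    rw [← cinv_realize g φ (Sum.elim (fun a : A => (a : C)) x)]
    have : g • (Sum.elim (fun a : A => (a : C)) x) = Sum.elim (fun a : A => (a : C)) (g • x) := by
      ext i
      cases i with
      | inl a => exact hg a a.2
      | inr i => rfl
    rw [this]
  · intro g
    rw [Set.definable_iff_exists_formula_sum]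
    let τ : A → ↥(tr g⁻¹ A) := fun a => ⟨g⁻¹ • (a : C), ⟨a, a.2, rfl⟩⟩
    refine ⟨φ.relabel (Sum.map τ id), ?_⟩
    ext x
    show φ.Realize (Sum.elim (fun a : A => (a : C)) (g • x)) ↔ _
    rw [← cinv_realize g⁻¹ φ (Sum.elim (fun a : A => (a : C)) (g • x))]
    show _ ↔ (φ.relabel (Sum.map τ id)).Realize (Sum.elim (fun a : ↥(tr g⁻¹ A) => (a : C)) x)
    rw [Formula.realize_relabel]
    have : g⁻¹ • (Sum.elim (fun a : A => (a : C)) (g • x)) =
        (Sum.elim (fun a : ↥(tr g⁻¹ A) => (a : C)) x) ∘ Sum.map τ id := by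
      ext i
      cases i with
      | inl a => rfl
      | inr i =>
        show g⁻¹ • g • x i = x i
        simp
    rw [this]

end Pool.Agent.Helper90.TS
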