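import Pool.Agent.Helper90.TS.CStmts

set_option autoImplicit false

namespace Pool.Agent.Helper90.TS

open FirstOrder Language

theorem st_CLRD : ST_CLRD := by
  intro L C _ ν κ μ _ _ _ A B E W hB hE hW k
  induction k generalizing ν W with
  | zero =>
    have : {z : ν → C | LR B E 0 {x | Sum.elim z x ∈ W}} =
        {z : ν → C | ∃ x : μ → C, Sum.elim z x ∈ W} := rfl
    rw [this]
    exact Set.Definable.exists_of_finite hW
  | succ k ih =>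
    -- variables: (z, y), x
    let σ : ν ⊕ μ → (ν ⊕ κ) ⊕ μ := Sum.elim (Sum.inl ∘ Sum.inl) Sum.inr
    let τ : μ ⊕ κ → (ν ⊕ κ) ⊕ μ := Sum.elim Sum.inr (Sum.inl ∘ Sum.inr)
    have h1 : A.Definable L ((fun g : (ν ⊕ κ) ⊕ μ → C => g ∘ σ) ⁻¹' W) := hW.preimage_comp σ
    have h2 : A.Definable L ((fun g : (ν ⊕ κ) ⊕ μ → C => g ∘ τ) ⁻¹' E) := hE.preimage_comp τ
    have h3 := ih (ν ⊕ κ) _ (h1.inter h2)
    have h4 := ih (ν ⊕ κ) _ (h1.inter h2.compl)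
    have h5 : A.Definable L ((fun g : ν ⊕ κ → C => g ∘ Sum.inr) ⁻¹' B) := hB.preimage_comp Sum.inr
    have h6 := Set.Definable.exists_of_finite ((h5.inter h3).inter h4)
    convert h6 using 1
    ext z
    show (∃ y ∈ B, LR B E k _ ∧ LR B E k _) ↔ ∃ y : κ → C, _
    refine exists_congr fun y => ?_
    have e1 : {x : μ → C | Sum.elim (Sum.elim z y) x ∈ (fun g : (ν ⊕ κ) ⊕ μ → C => g ∘ σ) ⁻¹' W ∩
        (fun g : (ν ⊕ κ) ⊕ μ → C => g ∘ τ) ⁻¹' E} =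
        {x | Sum.elim z x ∈ W} ∩ {x | Sum.elim x y ∈ E} := by
      ext x
      have a1 : (Sum.elim (Sum.elim z y) x : (ν ⊕ κ) ⊕ μ → C) ∘ σ = Sum.elim z x := by
        ext i
        cases i <;> rfl
      have a2 : (Sum.elim (Sum.elim z y) x : (ν ⊕ κ) ⊕ μ → C) ∘ τ = Sum.elim x y := by
        ext i
        cases i <;> rfl
      show ((Sum.elim (Sum.elim z y) x : (ν ⊕ κ) ⊕ μ → C) ∘ σ ∈ W ∧
        (Sum.elim (Sum.elim z y) x : (ν ⊕ κ) ⊕ μ → C) ∘ τ ∈ E) ↔ _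
      rw [a1, a2]
      rfl
    have e2 : {x : μ → C | Sum.elim (Sum.elim z y) x ∈ (fun g : (ν ⊕ κ) ⊕ μ → C => g ∘ σ) ⁻¹' W ∩
        ((fun g : (ν ⊕ κ) ⊕ μ → C => g ∘ τ) ⁻¹' E)ᶜ} =
        {x | Sum.elim z x ∈ W} \ {x | Sum.elim x y ∈ E} := by
      ext x
      have a1 : (Sum.elim (Sum.elim z y) x : (ν ⊕ κ) ⊕ μ → C) ∘ σ = Sum.elim z x := by
        ext i
        cases i <;> rfl
      have a2 : (Sum.elim (Sum.elim z y) x : (ν ⊕ κ) ⊕ μ → C) ∘ τ = Sum.elim x y := by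
        ext i
        cases i <;> rfl
      show ((Sum.elim (Sum.elim z y) x : (ν ⊕ κ) ⊕ μ → C) ∘ σ ∈ W ∧
        ¬ ((Sum.elim (Sum.elim z y) x : (ν ⊕ κ) ⊕ μ → C) ∘ τ ∈ E)) ↔ _
      rw [a1, a2]
      rfl
    show (y ∈ B ∧ LR B E k _ ∧ LR B E k _) ↔ ((y ∈ B ∧ LR B E k {x : μ → C | _}) ∧
      LR B E k {x : μ → C | _})
    rw [← e1, ← e2]
    tauto

end Pool.Agent.Helper90.TS
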