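import Pool.Agent.Helper90.TS.CStmts

set_option autoImplicit false

namespace Pool.Agent.Helper90.TS

open FirstOrder Language

theorem st_CPAR : ST_CPAR := by
  intro L C _ ι _ A D
  constructor
  · intro hD
    rw [Set.definable_iff_finitely_definable] at hD
    obtain ⟨A0, hA0, hD⟩ := hD
    rw [Set.definable_iff_exists_formula_sum] at hD
    obtain ⟨φ, rfl⟩ := hD
    obtain ⟨m, ⟨e⟩⟩ := Finite.exists_equiv_fin (A0 : Set C)
    refine ⟨m, fun i => (e.symm i : C), {w | φ.Realize (w ∘ Sum.map e id)}, ?_, ?_, ?_⟩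
    · rintro _ ⟨i, rfl⟩
      exact hA0 (e.symm i).2
    · rw [Z0, Set.empty_definable_iff]
      refine ⟨φ.relabel (Sum.map e id), ?_⟩
      ext w
      exact (Formula.realize_relabel (φ := φ) (v := w) (g := Sum.map e id)).symm
    · ext x
      show φ.Realize _ ↔ φ.Realize _
      have : (Sum.elim (fun i => (e.symm i : C)) x) ∘ Sum.map e id =
          Sum.elim (fun a : (A0 : Set C) => (a : C)) x := by
        ext i
        cases i with
        | inl a => simp
        | inr i => rfl
      rw [this]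
  · rintro ⟨m, a, E, ha, hE, rfl⟩
    rw [Z0, Set.empty_definable_iff] at hE
    obtain ⟨φ, rfl⟩ := hE
    rw [Set.definable_iff_exists_formula_sum]
    refine ⟨φ.relabel (Sum.map (fun i => ⟨a i, ha ⟨i, rfl⟩⟩) id), ?_⟩
    ext x
    show φ.Realize _ ↔ (φ.relabel _).Realize _
    rw [Formula.realize_relabel]
    have : (Sum.elim (fun a : A => (a : C)) x) ∘ (Sum.map (fun i => (⟨a i, ha ⟨i, rfl⟩⟩ : A)) id) =
        Sum.elim a x := by
      ext i
      cases i <;> rfl
    rw [this]

end Pool.Agent.Helper90.TS
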