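import Pool.Agent.Helper90.TS.CStmts

set_option autoImplicit false

namespace Pool.Agent.Helper90.TS

open FirstOrder Language

theorem st_CSAT : ST_CSAT := by
  intro L C _ S hM ι _ F hF hb h
  obtain ⟨N, hN⟩ := hb
  obtain ⟨n, ⟨e⟩⟩ := Finite.exists_equiv_fin ι
  have := hM.sat N n (fun i => {y | y ∘ e ∈ F i}) (fun i => (hF i).preimage_comp e) (by
    intro k
    obtain ⟨x, hx⟩ := h (k + 1)
    have h0 := hx 0 (by omega)
    refine ⟨x ∘ e.symm, fun j => hN x h0 _, fun i hi => ?_⟩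
    show (x ∘ e.symm) ∘ e ∈ F i
    have : (x ∘ e.symm) ∘ e = x := by
      ext i
      simp
    rw [this]
    exact hx i (by omega))
  obtain ⟨x, _, hx⟩ := this
  exact ⟨x ∘ e, hx⟩

end Pool.Agent.Helper90.TS
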