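import Pool.Agent.Helper90.TS.CStmts

set_option autoImplicit false

namespace Pool.Agent.Helper90.TS

open FirstOrder Language

theorem st_CTV (hP : ST_CPAR) : ST_CTV := by
  intro L C _ ι _ N D hD hne
  obtain ⟨m, a, E, ha, hE, rfl⟩ := (hP L C ι (N : Set C) D).1 hD
  rw [Z0, Set.empty_definable_iff] at hE
  obtain ⟨φ, rfl⟩ := hE
  obtain ⟨x, hx⟩ := hne
  let a' : Fin m → N := fun i => ⟨a i, ha ⟨i, rfl⟩⟩
  have haa : (fun i => (a' i : C)) = a := rfl
  have h1 : (φ.iExs ι : L.Formula (Fin m)).Realize a := by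
    rw [Formula.realize_iExs]
    exact ⟨x, hx⟩
  have h2 : (φ.iExs ι : L.Formula (Fin m)).Realize a' := by
    have := (N.subtype.map_formula (φ.iExs ι) a')
    rw [← this]
    exact h1
  rw [Formula.realize_iExs] at h2
  obtain ⟨y, hy⟩ := h2
  refine ⟨fun i => (y i : C), ?_, fun i => (y i).2⟩
  have h3 := N.subtype.map_formula φ (Sum.elim a' y)
  rw [← h3] at hy
  show φ.Realize _
  convert hy using 1
  ext i
  cases i <;> rfl

end Pool.Agent.Helper90.TS
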