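import Pool.Agent.Helper90.TS.CStmts

set_option autoImplicit false

namespace Pool.Agent.Helper90.TS

open FirstOrder Language

theorem st_CTYPE : ST_CTYPE := by
  intro L C _ S hM ι _ A hA b b' h
  by_cases hι : IsEmpty ι
  · exact ⟨1, one_mem _, by ext i; exact hι.elim i⟩
  rw [not_isEmpty_iff] at hι
  haveI := hA.to_subtype
  haveI : Countable ι := Finite.to_countable
  obtain ⟨τ, hτ⟩ := exists_surjective_nat (ι ⊕ A)
  have key : ∀ (n : ℕ) (D : Set (Fin n → C)), (∅ : Set C).Definable L D →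
      A.Definable L {x : ι → C | (fun i : Fin n => Sum.elim x (fun a : A => (a : C)) (τ i)) ∈ D} := by
    intro n D hD
    rw [Set.empty_definable_iff] at hD
    obtain ⟨φ, rfl⟩ := hD
    rw [Set.definable_iff_exists_formula_sum]
    refine ⟨φ.relabel (fun i : Fin n => (τ i).swap), ?_⟩
    ext x
    show φ.Realize _ ↔ (φ.relabel _).Realize _
    rw [Formula.realize_relabel]
    have : (Sum.elim (fun a : A => (a : C)) x) ∘ (fun i : Fin n => (τ i).swap) =
        fun i : Fin n => Sum.elim x (fun a : A => (a : C)) (τ i) := by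
      ext i
      show Sum.elim _ _ (τ i).swap = Sum.elim _ _ (τ i)
      cases τ i <;> rfl
    rw [this]
  have hh : ∀ D : Set (ι → C), A.Definable L D → (b ∈ D ↔ b' ∈ D) := by
    intro D hD
    refine ⟨h D hD, fun hb' => ?_⟩
    by_contra hb
    exact h Dᶜ hD.compl hb hb'
  obtain ⟨f, hf⟩ := hM.hom (fun i => Sum.elim b (fun a : A => (a : C)) (τ i))
    (fun i => Sum.elim b' (fun a : A => (a : C)) (τ i)) (by
      intro n
      ext D
      constructor
      · rintro ⟨hD, hx⟩
        exact ⟨hD, (hh _ (key n D hD)).1 hx⟩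
      · rintro ⟨hD, hx⟩
        exact ⟨hD, (hh _ (key n D hD)).2 hx⟩)
  obtain ⟨g, hg⟩ := AutG.ofEquiv f
  refine ⟨g, ?_, ?_⟩
  · intro a ha
    obtain ⟨i, hi⟩ := hτ (Sum.inr ⟨a, ha⟩)
    have := hf i
    rw [hi] at this
    rw [hg]
    exact this
  · ext j
    obtain ⟨i, hi⟩ := hτ (Sum.inl j)
    have := hf i
    rw [hi] at this
    show g • b j = b' j
    rw [hg]
    exact this

end Pool.Agent.Helper90.TS
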