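import Pool.Agent.Helper90.TS.CStmts

set_option autoImplicit false

namespace Pool.Agent.Helper90.TS

open FirstOrder Language

theorem rho_single {L : FirstOrder.Language.{0, 0}} {C : Type} [L.Structure C] (hP : ST_CPAR)
    (e : C) : (Set.univ : Set C).Definable L {v : Unit → C | v = fun _ => e} := by
  refine (hP L C Unit Set.univ _).2 ⟨1, fun _ => e, {w | w (Sum.inl 0) = w (Sum.inr ())},
    Set.subset_univ _, ?_, ?_⟩
  · rw [Z0, Set.empty_definable_iff]
    refine ⟨Term.equal (Term.var (Sum.inl 0)) (Term.var (Sum.inr ())), ?_⟩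
    ext w
    show _ ↔ (Term.equal _ _).Realize w
    rw [Formula.realize_equal]
    rfl
  · ext v
    show (v = fun _ => e) ↔ e = v ()
    constructor
    · rintro rfl
      rfl
    · intro h
      ext i
      exact h.symm

theorem st_RHO (hD : ST_CINVD) (hP : ST_CPAR) (hI : ST_CINV) : ST_RHO := by
  intro L C _ S hM μ _ c e hc
  obtain ⟨N, hN⟩ := hM.cover e
  have h1 := hD L C S hM Unit (Set.range c) (Set.finite_range c).countable
    {v | v = fun _ => e} (rho_single hP e) ⟨N, by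
      rintro _ rfl i
      exact hN⟩ (by
      rintro g hg _ rfl
      show g • (fun _ => e) = fun _ => e
      ext i
      exact hc g (fx_range.1 hg))
  obtain ⟨m, a, E, ha, hE, hDE⟩ := (hP L C Unit (Set.range c) _).1 h1
  have : ∀ i, ∃ j, c j = a i := fun i => ha ⟨i, rfl⟩
  choose σ hσ using this
  have haσ : a = c ∘ σ := by
    ext i
    exact (hσ i).symm
  refine ⟨{w | w ∘ Sum.map σ id ∈ E}, hE.preimage_comp (Sum.map σ id), fun g v => ?_⟩
  show (Sum.elim (g • c) v) ∘ Sum.map σ id ∈ E ↔ _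
  have e1 : (Sum.elim (g • c) v) ∘ Sum.map σ id = Sum.elim (g • a) v := by
    rw [haσ]
    ext i
    cases i <;> rfl
  rw [e1]
  have e2 := (hI L C (Fin m ⊕ Unit) ∅ E hE).1 g⁻¹ (by rw [fx_empty]; trivial)
    (Sum.elim (g • a) v)
  rw [← e2, smul_elim, inv_smul_smul]
  have e3 : Sum.elim a (g⁻¹ • v) ∈ E ↔ g⁻¹ • v = fun _ => e := by
    have : g⁻¹ • v ∈ {v : Unit → C | v = fun _ => e} ↔
        g⁻¹ • v ∈ {x | Sum.elim a x ∈ E} := by rw [hDE]
    exact this.symm
  rw [e3, inv_smul_eq_iff]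
  rfl

end Pool.Agent.Helper90.TS
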