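import Pool.Agent.Helper90.TS.CStmts

set_option autoImplicit false

namespace Pool.Agent.Helper90.TS

open FirstOrder Language

theorem st_SML (hT : ST_CTYPE) : ST_SML := by
  classical
  intro L C _ T n c d hd A hA
  obtain ⟨m, ⟨ε⟩⟩ := Finite.exists_equiv_fin A (h := hA.to_subtype)
  let α : Fin m → C := fun i => ((ε.symm i : T.V) : C)
  obtain ⟨r, ⟨e⟩⟩ := Finite.exists_equiv_fin ((Fin n ⊕ Fin n) ⊕ Fin m)
  let tup : (AutG L C) × (AutG L C) → Fin r → C := fun g =>
    Sum.elim (Sum.elim (g.1 • c) (g.2 • c)) α ∘ e.symm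
  have hcnt := T.small r
  obtain ⟨f, hf⟩ := hcnt.exists_eq_range ⟨tp L ∅ (tup (1, 1)), _, rfl⟩
  let rep : ℕ → (AutG L C) × (AutG L C) := fun k =>
    if h : ∃ g, f k = tp L ∅ (tup g) then h.choose else (1, 1)
  refine ⟨fun k => (fun i => (rep k).1 • d i, fun i => (rep k).2 • d i), ?_⟩
  rintro d0 d1 ⟨g0, -, hg0⟩ ⟨g1, -, hg1⟩
  have hmem : tp L ∅ (tup (g0, g1)) ∈ Set.range f := by
    rw [← hf]
    exact ⟨_, rfl⟩
  obtain ⟨k, hk⟩ := hmem
  have hex : ∃ g, f k = tp L ∅ (tup g) := ⟨_, hk⟩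
  have hrep : f k = tp L ∅ (tup (rep k)) := by
    have : rep k = hex.choose := dif_pos hex
    rw [this]
    exact hex.choose_spec
  obtain ⟨g, -, hg⟩ := hT L C T.S T.hM (Fin r) ∅ Set.countable_empty (tup (rep k)) (tup (g0, g1)) (by
    intro D hD hx
    have h1 : D ∈ tp L ∅ (tup (rep k)) := ⟨hD, hx⟩
    rw [← hrep, hk] at h1
    exact h1.2)
  have h1 : ∀ i, g • (rep k).1 • c i = g0 • c i := by
    intro i
    have := congrFun hg (e (Sum.inl (Sum.inl i)))
    change g • (Sum.elim (Sum.elim ((rep k).1 • c) ((rep k).2 • c)) α)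
      (e.symm (e (Sum.inl (Sum.inl i)))) = (Sum.elim (Sum.elim (g0 • c) (g1 • c)) α)
      (e.symm (e (Sum.inl (Sum.inl i)))) at this
    rw [e.symm_apply_apply] at this
    exact this
  have h2 : ∀ i, g • (rep k).2 • c i = g1 • c i := by
    intro i
    have := congrFun hg (e (Sum.inl (Sum.inr i)))
    change g • (Sum.elim (Sum.elim ((rep k).1 • c) ((rep k).2 • c)) α)
      (e.symm (e (Sum.inl (Sum.inr i)))) = (Sum.elim (Sum.elim (g0 • c) (g1 • c)) α)
      (e.symm (e (Sum.inl (Sum.inr i)))) at this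
    rw [e.symm_apply_apply] at this
    exact this
  have h3 : ∀ i, g • α i = α i := by
    intro i
    have := congrFun hg (e (Sum.inr i))
    change g • (Sum.elim (Sum.elim ((rep k).1 • c) ((rep k).2 • c)) α)
      (e.symm (e (Sum.inr i))) = (Sum.elim (Sum.elim (g0 • c) (g1 • c)) α)
      (e.symm (e (Sum.inr i))) at this
    rw [e.symm_apply_apply] at this
    exact this
  have key : ∀ (h g' : AutG L C) , (∀ i, g • h • c i = g' • c i) →
      ∀ i, g • h • d i = g' • d i := by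
    intro h g' hh i
    have h4 : (g'⁻¹ * g * h) • c = c := by
      ext j
      show (g'⁻¹ * g * h) • c j = c j
      rw [mul_smul, mul_smul, hh j, inv_smul_smul]
    have h5 := hd _ h4 i
    rw [mul_smul, mul_smul, inv_smul_eq_iff] at h5
    exact h5
  refine ⟨k, g, ?_, ?_, ?_⟩
  · intro a ha
    have h6 := h3 (ε ⟨a, ha⟩)
    apply Subtype.ext
    have h7 : α (ε ⟨a, ha⟩) = (a : C) := by
      show ((ε.symm (ε ⟨a, ha⟩) : T.V) : C) = a
      rw [ε.symm_apply_apply]
    rw [h7] at h6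
    exact h6
  · intro i
    rw [← hg0 i]
    exact key _ _ h1 i
  · intro i
    rw [← hg1 i]
    exact key _ _ h2 i

end Pool.Agent.Helper90.TS
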