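import Pool.Agent.Helper90.TS.CStmts

set_option autoImplicit false

namespace Pool.Agent.Helper90.TS

open FirstOrder Language

theorem up_inj {L : FirstOrder.Language.{0, 0}} {C : Type} [L.Structure C] {T : Dt L C}
    {ι : Type} : Function.Injective (up : (ι → T.V) → ι → C) := by
  intro x y h
  ext i
  exact congrFun h i

theorem up_mem_im {L : FirstOrder.Language.{0, 0}} {C : Type} [L.Structure C] {T : Dt L C}
    {ι : Type} {D : Set (ι → T.V)} {x : ι → T.V} : up x ∈ im D ↔ x ∈ D :=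
  up_inj.mem_set_image

theorem up_smul {L : FirstOrder.Language.{0, 0}} {C : Type} [L.Structure C] {T : Dt L C}
    {ι : Type} (g : AutG L C) (x : ι → T.V) : up (g • x) = g • up x := rfl

theorem st_UBOOL (hI : ST_CINV) : ST_UBOOL := by
  intro L C _ T
  refine ⟨?_, ?_, ?_, ?_⟩
  · intro ι _
    have : im (∅ : Set (ι → T.V)) = ∅ := Set.image_empty _
    refine ⟨?_, ∅, Set.definable_empty, ⟨0, fun x hx => hx.elim⟩, ?_, fun x hx => hx.elim⟩
    · rw [this]
      exact Set.definable_empty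
    · rw [this]
  · rintro ι _ D ⟨hD, B, hB, ⟨N, hN⟩, hDB, hBU⟩ E ⟨hE, B', hB', ⟨N', hN'⟩, hEB, hBU'⟩
    have : im (D ∪ E) = im D ∪ im E := Set.image_union _ _ _
    refine ⟨?_, B ∪ B', hB.union hB', ⟨max N N', ?_⟩, ?_, ?_⟩
    · rw [this]
      exact hD.union hE
    · rintro x (hx | hx) i
      · exact T.hM.mono (le_max_left _ _) (hN x hx i)
      · exact T.hM.mono (le_max_right _ _) (hN' x hx i)
    · rw [this]
      exact Set.union_subset_union hDB hEB
    · rintro x (hx | hx) i
      · exact hBU x hx i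
      · exact hBU' x hx i
  · rintro ι _ D ⟨hD, B, hB, ⟨N, hN⟩, hDB, hBU⟩ E ⟨hE, -⟩
    have : im (D \ E) = im D \ im E := Set.image_diff up_inj _ _
    refine ⟨?_, B, hB, ⟨N, hN⟩, ?_, hBU⟩
    · rw [this]
      exact hD.inter hE.compl
    · rw [this]
      exact fun x hx => hDB hx.1
  · rintro ι _ D ⟨hD, B, hB, hbd, hDB, hBU⟩ g
    have h1 : im {x | g • x ∈ D} = {x | g • x ∈ im D} := by
      ext x
      constructor
      · rintro ⟨y, hy, rfl⟩
        exact ⟨g • y, hy, rfl⟩
      · rintro ⟨y, hy, hyx⟩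
        refine ⟨g⁻¹ • y, ?_, ?_⟩
        · show g • g⁻¹ • y ∈ D
          rwa [smul_inv_smul]
        · rw [up_smul, hyx]
          exact inv_smul_smul g x
    have h2 : tr g⁻¹ (T.UU : Set C) = T.UU := by
      ext x
      rw [mem_tr, inv_inv]
      constructor
      · intro h
        have := T.UU.smul_mem g⁻¹ h
        rwa [inv_smul_smul] at this
      · intro h
        exact T.UU.smul_mem g h
    refine ⟨?_, B, hB, hbd, ?_, hBU⟩
    · rw [h1, ← h2]
      exact (hI L C ι _ _ hD).2 g
    · rw [h1]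
      intro x hx
      exact ((hI L C ι ∅ B hB).1 g (by rw [fx_empty]; trivial) x).1 (hDB hx)

end Pool.Agent.Helper90.TS
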