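import Pool.Agent.Helper90.TS.CStmts

set_option autoImplicit false

namespace Pool.Agent.Helper90.TS

open FirstOrder Language

theorem st_UCODE (hP : ST_CPAR) (hI : ST_CINV) (hU : ST_UU1) : ST_UCODE := by
  intro L C _ T ι _ D hD
  obtain ⟨u1, u2, u3, u4⟩ := hU L C T
  obtain ⟨hD1, B, hB, ⟨N, hN⟩, hDB, hBU⟩ := hD
  have up_inj : Function.Injective (up : (ι → T.V) → ι → C) := by
    intro x y h
    ext i
    exact congrFun h i
  obtain ⟨n, ⟨ε⟩⟩ := Finite.exists_equiv_fin ι
  obtain ⟨k, e, he⟩ := T.hM.code N n {y | y ∘ ε ∈ im D}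
    ((hD1.mono (Set.subset_univ _)).preimage_comp ε) (by
      intro x hx j
      have := hN _ (hDB hx) (ε.symm j)
      simpa using this)
  -- the key equivalence
  have key : ∀ g : AutG L C, (∀ x, g • x ∈ D ↔ x ∈ D) ↔ g • e = e := by
    intro g
    obtain ⟨f, hf⟩ := AutG.toEquiv g
    have h1 : g • e = e ↔ f ∘ e = e := by
      have : g • e = f ∘ e := by
        ext i
        exact (hf (e i)).symm
      rw [this]
    rw [h1, ← he f]
    have h2 : ∀ x : Fin n → C, f ∘ x ∈ {y : Fin n → C | y ∘ ε ∈ im D} ↔ g • (x ∘ ε) ∈ im D := by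
      intro x
      have : (f ∘ x) ∘ ε = g • (x ∘ ε) := by
        ext i
        exact hf _
      show (f ∘ x) ∘ ε ∈ im D ↔ _
      rw [this]
    have hup : ∀ x : ι → T.V, up x ∈ im D ↔ x ∈ D := fun x => up_inj.mem_set_image
    constructor
    · intro h x
      rw [h2 x]
      show g • (x ∘ ε) ∈ im D ↔ x ∘ ε ∈ im D
      constructor
      · rintro ⟨y, hy, hyx⟩
        refine ⟨g⁻¹ • y, ?_, ?_⟩
        · rw [← h (g⁻¹ • y), smul_inv_smul]
          exact hy
        · show g⁻¹ • up y = x ∘ ε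
          rw [hyx, inv_smul_smul]
      · rintro ⟨y, hy, hyx⟩
        refine ⟨g • y, (h y).2 hy, ?_⟩
        show g • up y = g • (x ∘ ε)
        rw [hyx]
    · intro h x
      have := h (up x ∘ ε.symm)
      rw [h2] at this
      have e1 : (up x ∘ ε.symm) ∘ ε = up x := by
        ext i
        simp
      change g • ((up x ∘ ε.symm) ∘ ε) ∈ im D ↔ (up x ∘ ε.symm) ∘ ε ∈ im D at this
      rw [e1] at this
      rw [← hup x, ← hup (g • x)]
      exact this
  obtain ⟨m, a, E, ha, hE, hDE⟩ := (hP L C ι _ _).1 hD1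
  have heU : ∀ i, e i ∈ T.UU := by
    intro i
    refine u2 m a (e i) (fun i => ha ⟨i, rfl⟩) (fun g hg => ?_)
    have : g • e = e := by
      rw [← key g]
      intro x
      have h1 : ∀ y : ι → C, y ∈ im D ↔ Sum.elim a y ∈ E := by
        intro y
        rw [hDE]
        rfl
      have hup : ∀ x : ι → T.V, up x ∈ im D ↔ x ∈ D := fun x => up_inj.mem_set_image
      rw [← hup x, ← hup (g • x), h1, h1]
      have h2 := (hI L C (Fin m ⊕ ι) ∅ E hE).1 g (by rw [fx_empty]; trivial) (Sum.elim a (up x))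
      rw [smul_elim, hg] at h2
      exact h2
    exact congrFun this i
  refine ⟨k, fun i => ⟨e i, heU i⟩, fun g => ?_⟩
  rw [key g]
  constructor
  · intro h
    ext i
    exact congrFun h i
  · intro h
    ext i
    exact congrArg Subtype.val (congrFun h i)

end Pool.Agent.Helper90.TS
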