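import Pool.Agent.Helper90.TS.CStmts

set_option autoImplicit false

namespace Pool.Agent.Helper90.TS

open FirstOrder Language

theorem uimg_sec {L : FirstOrder.Language.{0, 0}} {C : Type} [L.Structure C] {A : Set C}
    {κ ι : Type} {D : Set (κ ⊕ ι → C)} (hD : A.Definable L D) {a : κ → C} (ha : ∀ i, a i ∈ A) :
    A.Definable L {x | Sum.elim a x ∈ D} := by
  rw [Set.definable_iff_exists_formula_sum] at hD ⊢
  obtain ⟨φ, rfl⟩ := hD
  refine ⟨φ.relabel (Sum.elim Sum.inl (Sum.elim (fun i => Sum.inl ⟨a i, ha i⟩) Sum.inr)), ?_⟩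
  ext x
  show φ.Realize _ ↔ (φ.relabel _).Realize _
  rw [Formula.realize_relabel]
  have : (Sum.elim (fun a : A => (a : C)) x) ∘
      (Sum.elim Sum.inl (Sum.elim (fun i => Sum.inl ⟨a i, ha i⟩) Sum.inr) :
        A ⊕ (κ ⊕ ι) → A ⊕ ι) = Sum.elim (fun a : A => (a : C)) (Sum.elim a x) := by
    ext i
    rcases i with i | i | i <;> rfl
  rw [this]

theorem st_UIMG : ST_UIMG := by
  intro L C _ T
  have up_inj : ∀ {ι : Type}, Function.Injective (up : (ι → T.V) → ι → C) := by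
    intro ι x y h
    ext i
    exact congrFun h i
  have lift : ∀ {ι : Type} (x : ι → C), (∀ i, x i ∈ T.UU) → ∃ y : ι → T.V, up y = x :=
    fun x hx => ⟨fun i => ⟨x i, hx i⟩, rfl⟩
  refine ⟨?_, ?_, ?_, ?_⟩
  · rintro κ ι _ _ D ⟨hD, B, hB, ⟨N, hN⟩, hDB, hBU⟩ a
    have h1 : im {x | Sum.elim a x ∈ D} = {x | Sum.elim (up a) x ∈ im D} := by
      ext x
      constructor
      · rintro ⟨y, hy, rfl⟩
        refine ⟨_, hy, ?_⟩
        ext i
        cases i <;> rfl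
      · rintro ⟨z, hz, hzx⟩
        have e1 : z ∘ Sum.inl = a := by
          apply up_inj
          ext i
          exact congrFun hzx (Sum.inl i)
        refine ⟨z ∘ Sum.inr, ?_, ?_⟩
        · show Sum.elim a (z ∘ Sum.inr) ∈ D
          rw [← e1, Sum.elim_comp_inl_inr]
          exact hz
        · ext i
          exact congrFun hzx (Sum.inr i)
    refine ⟨?_, {x | ∃ y : κ → C, Sum.elim x y ∈ (fun g : ι ⊕ κ → C => g ∘ Sum.swap) ⁻¹' B}, ?_,
      ⟨N, ?_⟩, ?_, ?_⟩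
    · rw [h1]
      exact uimg_sec hD fun i => (a i).2
    · exact Set.Definable.exists_of_finite (hB.preimage_comp Sum.swap)
    · rintro x ⟨y, hy⟩ i
      exact hN _ hy (Sum.inr i)
    · rw [h1]
      intro x hx
      refine ⟨up a, ?_⟩
      show Sum.elim x (up a) ∘ Sum.swap ∈ B
      have : Sum.elim x (up a) ∘ Sum.swap = Sum.elim (up a) x := by
        ext i
        cases i <;> rfl
      rw [this]
      exact hDB hx
    · rintro x ⟨y, hy⟩ i
      exact hBU _ hy (Sum.inr i)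
  · rintro κ ι _ _ σ D ⟨hD, B, hB, ⟨N, hN⟩, hDB, hBU⟩
    have h1 : im {y : κ → T.V | ∃ x ∈ D, y = x ∘ σ} = (fun g : ι → C => g ∘ σ) '' im D := by
      ext x
      constructor
      · rintro ⟨_, ⟨y, hy, rfl⟩, rfl⟩
        exact ⟨up y, ⟨y, hy, rfl⟩, rfl⟩
      · rintro ⟨_, ⟨y, hy, rfl⟩, rfl⟩
        exact ⟨y ∘ σ, ⟨y, hy, rfl⟩, rfl⟩
    refine ⟨?_, (fun g : ι → C => g ∘ σ) '' B, ?_, ⟨N, ?_⟩, ?_, ?_⟩
    · rw [h1]
      exact hD.image_comp σ
    · exact Set.Definable.image_comp hB σ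
    · rintro _ ⟨x, hx, rfl⟩ i
      exact hN x hx _
    · rw [h1]
      exact Set.image_mono hDB
    · rintro _ ⟨x, hx, rfl⟩ i
      exact hBU x hx _
  · rintro κ ι _ _ σ D ⟨hD, -⟩ B ⟨hB, B', hB', hbd, hBB, hBU⟩
    have h1 : im {x | x ∈ B ∧ x ∘ σ ∈ D} = im B ∩ (fun g : ι → C => g ∘ σ) ⁻¹' im D := by
      ext x
      constructor
      · rintro ⟨y, hy, rfl⟩
        exact ⟨⟨y, hy.1, rfl⟩, ⟨y ∘ σ, hy.2, rfl⟩⟩
      · rintro ⟨⟨y, hy, rfl⟩, ⟨z, hz, hzy⟩⟩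
        refine ⟨y, ⟨hy, ?_⟩, rfl⟩
        have : z = y ∘ σ := up_inj hzy
        exact this ▸ hz
    refine ⟨?_, B', hB', hbd, ?_, hBU⟩
    · rw [h1]
      exact hB.inter (hD.preimage_comp σ)
    · rw [h1]
      exact fun x hx => hBB hx.1
  · rintro κ ι _ _ D ⟨hD, B, hB, ⟨N, hN⟩, hDB, hBU⟩ E ⟨hE, B', hB', ⟨N', hN'⟩, hEB, hBU'⟩
    have h1 : im {x : κ ⊕ ι → T.V | x ∘ Sum.inl ∈ D ∧ x ∘ Sum.inr ∈ E} =
        (fun g : κ ⊕ ι → C => g ∘ Sum.inl) ⁻¹' im D ∩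
        (fun g : κ ⊕ ι → C => g ∘ Sum.inr) ⁻¹' im E := by
      ext x
      constructor
      · rintro ⟨y, hy, rfl⟩
        exact ⟨⟨_, hy.1, rfl⟩, ⟨_, hy.2, rfl⟩⟩
      · rintro ⟨⟨y, hy, hyx⟩, ⟨z, hz, hzx⟩⟩
        refine ⟨Sum.elim y z, ⟨?_, ?_⟩, ?_⟩
        · rwa [Sum.elim_comp_inl]
        · rwa [Sum.elim_comp_inr]
        · ext i
          rcases i with i | i
          · exact congrFun hyx i
          · exact congrFun hzx i
    refine ⟨?_, (fun g : κ ⊕ ι → C => g ∘ Sum.inl) ⁻¹' B ∩ (fun g : κ ⊕ ι → C => g ∘ Sum.inr) ⁻¹' B',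
      (hB.preimage_comp _).inter (hB'.preimage_comp _), ⟨max N N', ?_⟩, ?_, ?_⟩
    · rw [h1]
      exact (hD.preimage_comp _).inter (hE.preimage_comp _)
    · rintro x ⟨hx1, hx2⟩ i
      rcases i with i | i
      · exact T.hM.mono (le_max_left _ _) (hN _ hx1 i)
      · exact T.hM.mono (le_max_right _ _) (hN' _ hx2 i)
    · rw [h1]
      exact fun x hx => ⟨hDB hx.1, hEB hx.2⟩
    · rintro x ⟨hx1, hx2⟩ i
      rcases i with i | i
      · exact hBU _ hx1 i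
      · exact hBU' _ hx2 i

end Pool.Agent.Helper90.TS
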