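import Pool.Agent.Helper90.TS.CStmts

set_option autoImplicit false

namespace Pool.Agent.Helper90.TS

open FirstOrder Language

theorem st_USAT (hS : ST_CSAT) (hI : ST_CINV) (hU : ST_UU1) : ST_USAT := by
  intro L C _ T
  obtain ⟨u1, u2, u3, u4⟩ := hU L C T
  have up_inj : ∀ {ι : Type}, Function.Injective (up : (ι → T.V) → ι → C) := by
    intro ι x y h
    ext i
    exact congrFun h i
  refine ⟨?_, ?_⟩
  · intro ι _ F hF h
    obtain ⟨_, B, hB, ⟨N, hN⟩, hDB, hBU⟩ := hF 0
    obtain ⟨x, hx⟩ := hS L C T.S T.hM ι (fun i => im (F i))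
      (fun i => (hF i).1.mono (Set.subset_univ _)) ⟨N, fun x hx => hN x (hDB hx)⟩ (by
        intro k
        obtain ⟨x, hx⟩ := h k
        exact ⟨up x, fun i hi => ⟨x, hx i hi, rfl⟩⟩)
    obtain ⟨y, _, hy⟩ := hx 0
    refine ⟨y, fun i => ?_⟩
    obtain ⟨z, hz, hzx⟩ := hx i
    have : z = y := up_inj (hzx.trans hy.symm)
    exact this ▸ hz
  · intro a b h
    have key : ∀ a b : ℕ → T.V, (∀ n, ∀ D ∈ T.Df (Fin n), Inv (⊤ : Subgroup (AutG L C)) D →
        ((fun i : Fin n => a i) ∈ D ↔ (fun i : Fin n => b i) ∈ D)) → ∀ (n : ℕ)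
        (D : Set (Fin n → C)), (∅ : Set C).Definable L D → (fun i : Fin n => (a i : C)) ∈ D →
        (fun i : Fin n => (b i : C)) ∈ D := by
      intro a b h n D hD haD
      obtain ⟨B, hB, ⟨N, hN⟩, haB, hBU⟩ := u3 (Fin n) (fun i => (a i : C)) (fun i => (a i).2)
      have him : im {x : Fin n → T.V | up x ∈ D ∩ B} = D ∩ B := by
        ext z
        constructor
        · rintro ⟨y, hy, rfl⟩
          exact hy
        · intro hz
          exact ⟨fun i => ⟨z i, hBU z hz.2 i⟩, hz, rfl⟩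
      have hDB : Z0 L (D ∩ B) := Set.Definable.inter hD hB
      have := (h n {x | up x ∈ D ∩ B} ⟨by
          rw [him]
          exact Set.Definable.mono hDB (Set.empty_subset _), D ∩ B, hDB, ⟨N, fun x hx => hN x hx.2⟩,
          him.le, fun x hx => hBU x hx.2⟩ (by
          intro g _ x hx
          exact ((hI L C (Fin n) ∅ (D ∩ B) hDB).1 g (by rw [fx_empty]; trivial) (up x)).2 hx)).1
        ⟨haD, haB⟩
      exact this.1
    obtain ⟨f, hf⟩ := T.hM.hom (fun i => (a i : C)) (fun i => (b i : C)) (by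
      intro n
      ext D
      constructor
      · rintro ⟨hD, hx⟩
        exact ⟨hD, key a b h n D hD hx⟩
      · rintro ⟨hD, hx⟩
        exact ⟨hD, key b a (fun n D hD hi => (h n D hD hi).symm) n D hD hx⟩)
    obtain ⟨g, hg⟩ := AutG.ofEquiv f
    refine ⟨g, fun i => Subtype.ext ?_⟩
    show g • (a i : C) = b i
    rw [hg]
    exact hf i

end Pool.Agent.Helper90.TS
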