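import Pool.Agent.Helper90.TS.CStmts

set_option autoImplicit false

namespace Pool.Agent.Helper90.TS

open FirstOrder Language

theorem usort_im {L : FirstOrder.Language.{0, 0}} {C : Type} [L.Structure C] {T : Dt L C}
    {ι : Type} {B : Set (ι → C)} (hB : ∀ x ∈ B, ∀ i, x i ∈ T.UU) :
    im {x : ι → T.V | up x ∈ B} = B := by
  ext z
  constructor
  · rintro ⟨y, hy, rfl⟩
    exact hy
  · intro hz
    exact ⟨fun i => ⟨z i, hB z hz i⟩, hz, rfl⟩

theorem usort_inj {L : FirstOrder.Language.{0, 0}} {C : Type} [L.Structure C] {T : Dt L C}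
    {ι : Type} : Function.Injective (up : (ι → T.V) → ι → C) := by
  intro x y h
  ext i
  exact congrFun h i

theorem usort_inv (hI : ST_CINV) {L : FirstOrder.Language.{0, 0}} {C : Type} [L.Structure C]
    {T : Dt L C} {ι : Type} {B : Set (ι → C)} (hB : Z0 L B) :
    Inv (⊤ : Subgroup (AutG L C)) {x : ι → T.V | up x ∈ B} := by
  intro g _ x hx
  exact ((hI L C ι ∅ B hB).1 g (by rw [fx_empty]; trivial) (up x)).2 hx

theorem st_USORT (hU : ST_UU1) (hP : ST_CPAR) (hN : ST_CCNT) (hI : ST_CINV) (hD : ST_CINVD) :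
    ST_USORT := by
  intro L C _ T
  obtain ⟨u1, u2, u3, u4⟩ := hU L C T
  have h4 : ∀ (ι : Type) [Finite ι] (D : Set (ι → T.V)), D ∈ T.Df ι →
      Inv (⊤ : Subgroup (AutG L C)) D → Z0 L (im D) := by
    rintro ι _ D ⟨hD1, B, hB, ⟨N, hN'⟩, hDB, hBU⟩ hinv
    refine hD L C T.S T.hM ι ∅ Set.countable_empty (im D) (hD1.mono (Set.subset_univ _))
      ⟨N, fun x hx => hN' x (hDB hx)⟩ ?_
    rintro g _ _ ⟨x, hx, rfl⟩
    exact ⟨g • x, hinv g trivial x hx, rfl⟩
  refine ⟨?_, ?_, ?_, h4⟩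
  · intro ι _ x
    obtain ⟨B, hB, hbd, hx, hBU⟩ := u3 ι (up x) (fun i => (x i).2)
    refine ⟨{y | up y ∈ B}, ⟨?_, B, hB, hbd, ?_, hBU⟩, usort_inv hI hB, hx⟩
    · rw [usort_im hBU]
      exact hB.mono (Set.empty_subset _)
    · rw [usort_im hBU]
  · rintro ι _ D ⟨hD1, B, hB, ⟨N, hN'⟩, hDB, hBU⟩
    obtain ⟨m, a, E, ha, hE, hDE⟩ := (hP L C ι _ _).1 hD1
    obtain ⟨Ba, hBa, ⟨Na, hNa⟩, haB, hBaU⟩ := u3 (Fin m) a (fun i => ha ⟨i, rfl⟩)
    set E' : Set (Fin m ⊕ ι → C) := E ∩ ((fun g : Fin m ⊕ ι → C => g ∘ Sum.inl) ⁻¹' Ba ∩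
      (fun g : Fin m ⊕ ι → C => g ∘ Sum.inr) ⁻¹' B) with hE'
    have hE0 : Z0 L E' := Set.Definable.inter hE
      ((Set.Definable.preimage_comp _ hBa).inter (Set.Definable.preimage_comp _ hB))
    have hEU : ∀ x ∈ E', ∀ i, x i ∈ T.UU := by
      rintro x ⟨_, h1, h2⟩ i
      rcases i with i | i
      · exact hBaU _ h1 i
      · exact hBU _ h2 i
    refine ⟨m, {w | up w ∈ E'}, fun i => ⟨a i, ha ⟨i, rfl⟩⟩, ⟨?_, E', hE0, ⟨max N Na, ?_⟩, ?_,
      hEU⟩, usort_inv hI hE0, ?_⟩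
    · rw [usort_im hEU]
      exact Set.Definable.mono hE0 (Set.empty_subset _)
    · rintro x ⟨_, h1, h2⟩ i
      rcases i with i | i
      · exact T.hM.mono (le_max_right _ _) (hNa _ h1 i)
      · exact T.hM.mono (le_max_left _ _) (hN' _ h2 i)
    · rw [usort_im hEU]
    · ext x
      have e1 : up (Sum.elim (fun i => (⟨a i, ha ⟨i, rfl⟩⟩ : T.V)) x) = Sum.elim a (up x) := by
        ext i
        cases i <;> rfl
      show x ∈ D ↔ up (Sum.elim (fun i => (⟨a i, ha ⟨i, rfl⟩⟩ : T.V)) x) ∈ E'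
      rw [e1]
      have e2 : x ∈ D ↔ up x ∈ im D := (usort_inj.mem_set_image).symm
      rw [e2]
      constructor
      · intro hx
        refine ⟨?_, ?_, ?_⟩
        · rw [hDE] at hx
          exact hx
        · exact haB
        · exact hDB hx
      · rintro ⟨h1, -⟩
        rw [hDE]
        exact h1
  · intro ι _
    have hinj : Function.Injective (im : Set (ι → T.V) → Set (ι → C)) :=
      Set.image_injective.2 usort_inj
    refine Set.Countable.mono (s₂ := im ⁻¹' {D : Set (ι → C) | (∅ : Set C).Definable L D}) ?_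
      ((hN L C ι ∅ T.hM.lang Set.countable_empty).preimage_of_injOn hinj.injOn)
    rintro D ⟨h1, h2⟩
    exact h4 ι D h1 h2

end Pool.Agent.Helper90.TS
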