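import Pool.Agent.Helper90.TS.CStmts

set_option autoImplicit false

namespace Pool.Agent.Helper90.TS

open FirstOrder Language

theorem st_USTAB (hP : ST_CPAR) : ST_USTAB := by
  intro L C _ T κ ι _ _ D hD
  rintro ⟨a, b, hab⟩
  obtain ⟨hD1, B, hB, ⟨N, hN⟩, hDB, hBU⟩ := hD
  have up_inj : Function.Injective (up : (κ ⊕ ι → T.V) → κ ⊕ ι → C) := by
    intro x y h
    ext i
    exact congrFun h i
  obtain ⟨r, u, E, hu, hE, hDE⟩ := (hP L C (κ ⊕ ι) _ _).1 hD1
  obtain ⟨m, ⟨e1⟩⟩ := Finite.exists_equiv_fin (Fin r ⊕ κ)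
  obtain ⟨n, ⟨e2⟩⟩ := Finite.exists_equiv_fin ι
  have hub : ∃ M, ∀ i, u i ∈ T.S M := by
    choose f hf using fun i => T.hM.cover (u i)
    exact ⟨Finset.univ.sup f, fun i => T.hM.mono (Finset.le_sup (Finset.mem_univ i)) (hf i)⟩
  obtain ⟨M, hM⟩ := hub
  let τ : Fin r ⊕ (κ ⊕ ι) → Fin m ⊕ Fin n :=
    Sum.elim (fun i => Sum.inl (e1 (Sum.inl i)))
      (Sum.elim (fun i => Sum.inl (e1 (Sum.inr i))) (fun j => Sum.inr (e2 j)))
  have hlt : ∀ i j, Sum.elim (up (a i)) (up (b j)) ∈ im D ↔ i < j := by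
    intro i j
    rw [← hab i j]
    have : Sum.elim (up (a i)) (up (b j)) = up (Sum.elim (a i) (b j)) := by
      ext l
      cases l <;> rfl
    rw [this]
    exact up_inj.mem_set_image
  refine T.stable (max N M) m n {w | w ∘ τ ∈ E} (Set.Definable.preimage_comp τ hE)
    ⟨fun i => Sum.elim u (up (a (i + 1))) ∘ e1.symm, fun j => up (b (j + 1)) ∘ e2.symm, ?_, ?_, ?_⟩
  · intro i k
    show Sum.elim u (up (a (i + 1))) (e1.symm k) ∈ _
    rcases e1.symm k with l | l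
    · exact T.hM.mono (le_max_right _ _) (hM l)
    · have h1 := hN _ (hDB ((hlt (i + 1) (i + 2)).2 (by omega))) (Sum.inl l)
      exact T.hM.mono (le_max_left _ _) h1
  · intro j k
    show up (b (j + 1)) (e2.symm k) ∈ _
    have h1 := hN _ (hDB ((hlt j (j + 1)).2 (by omega))) (Sum.inr (e2.symm k))
    exact T.hM.mono (le_max_left _ _) h1
  · intro i j
    have h2 : (Sum.elim (Sum.elim u (up (a (i + 1))) ∘ e1.symm) (up (b (j + 1)) ∘ e2.symm)) ∘ τ =
        Sum.elim u (Sum.elim (up (a (i + 1))) (up (b (j + 1)))) := by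
      ext l
      rcases l with l | l | l <;> simp [τ]
    show (Sum.elim (Sum.elim u (up (a (i + 1))) ∘ e1.symm) (up (b (j + 1)) ∘ e2.symm)) ∘ τ ∈ E ↔ _
    rw [h2]
    have h3 := hlt (i + 1) (j + 1)
    rw [hDE] at h3
    change Sum.elim u (Sum.elim (up (a (i + 1))) (up (b (j + 1)))) ∈ E ↔ _ at h3
    rw [h3]
    omega

end Pool.Agent.Helper90.TS
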