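import Pool.Agent.Helper90.TS.CStmts

set_option autoImplicit false

namespace Pool.Agent.Helper90.TS

open FirstOrder Language

theorem uu1_pi {L : FirstOrder.Language.{0, 0}} {C : Type} [L.Structure C] (ι : Type) [Finite ι]
    {P : ι → Set (Unit → C)} (hP : ∀ i, Z0 L (P i)) :
    Z0 L {x : ι → C | ∀ i, (fun _ : Unit => x i) ∈ P i} := by
  have : {x : ι → C | ∀ i, (fun _ : Unit => x i) ∈ P i} =
      ⋂ i, {x : ι → C | (fun _ : Unit => x i) ∈ P i} := by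
    ext x
    simp
  rw [this]
  unfold Z0
  refine Set.definable_iInter_of_finite fun i => ?_
  exact (Set.Definable.preimage_comp (fun _ : Unit => i) (hP i))

theorem uu1_eq {L : FirstOrder.Language.{0, 0}} {C : Type} [L.Structure C] {ι : Type} (i j : ι) :
    Z0 L {x : ι → C | x i = x j} := by
  rw [Z0, Set.empty_definable_iff]
  refine ⟨Term.equal (Term.var i) (Term.var j), ?_⟩
  ext w
  show _ ↔ (Term.equal _ _).Realize w
  rw [Formula.realize_equal]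
  rfl

theorem uu1_of {L : FirstOrder.Language.{0, 0}} {C : Type} [L.Structure C] {B : Set C}
    (hB : (∅ : Set C).Definable₁ L B) : Z0 L {v : Unit → C | v () ∈ B} :=
  Set.Definable.preimage_comp (fun _ : Fin 1 => ()) hB

theorem uu1_max {C : Type} {S : ℕ → Set C} (hm : Monotone S) {ι : Type} [Finite ι]
    (f : ι → ℕ) : ∃ N, ∀ i, S (f i) ⊆ S N := by
  haveI := Fintype.ofFinite ι
  refine ⟨Finset.univ.sup f, fun i => ?_⟩
  exact hm (Finset.le_sup (Finset.mem_univ i))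

theorem uu1_one (hR : ST_RHO) (hI : ST_CINV) {L : FirstOrder.Language.{0, 0}} {C : Type}
    [L.Structure C] (T : Dt L C) (e : C) (he : e ∈ T.UU) :
    ∃ (P : Set (Unit → C)) (N : ℕ), Z0 L P ∧ (fun _ => e) ∈ P ∧ (∀ v ∈ P, v () ∈ T.S N) ∧
      ∀ v ∈ P, v () ∈ T.UU := by
  obtain ⟨m, u, hu, hue⟩ := he
  choose j hj using fun k => Set.mem_iUnion.1 (hu k)
  obtain ⟨N, hN⟩ := T.hM.cover e
  obtain ⟨R, hR0, hR⟩ := hR L C T.S T.hM (Fin m) u e hue
  have hR1 : ∀ v : Unit → C, Sum.elim u v ∈ R ↔ v = fun _ => e := by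
    intro v
    have := hR 1 v
    rwa [one_smul, one_smul] at this
  let W : Set ((Unit ⊕ Fin m) → C) := {w | (w (Sum.inl ()) ∈ T.S N ∧
    ∀ k, w (Sum.inr k) ∈ T.Ph (j k)) ∧ (w ∘ Sum.swap ∈ R ∧
      ∀ v' : Unit → C, Sum.elim (w ∘ Sum.inr) v' ∈ R → v' = w ∘ Sum.inl)}
  have hW : Z0 L W := by
    have h1 : Z0 L {w : Unit ⊕ Fin m → C | w (Sum.inl ()) ∈ T.S N} :=
      Set.Definable.preimage_comp (fun _ : Unit => (Sum.inl () : Unit ⊕ Fin m))
        (uu1_of (T.hM.sortdef N))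
    have h2 : Z0 L {w : Unit ⊕ Fin m → C | ∀ k, w (Sum.inr k) ∈ T.Ph (j k)} :=
      Set.Definable.preimage_comp (Sum.inr : Fin m → Unit ⊕ Fin m)
        (uu1_pi (Fin m) (fun k => uu1_of (T.phdef (j k))))
    have h3 : Z0 L {w : Unit ⊕ Fin m → C | w ∘ Sum.swap ∈ R} :=
      Set.Definable.preimage_comp (Sum.swap : Fin m ⊕ Unit → Unit ⊕ Fin m) hR0
    have h4 : Z0 L {w : (Unit ⊕ Fin m) ⊕ Unit → C |
        w ∘ (Sum.map Sum.inr id : Fin m ⊕ Unit → (Unit ⊕ Fin m) ⊕ Unit) ∈ R}ᶜ :=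
      Set.Definable.compl (Set.Definable.preimage_comp _ hR0)
    have h5 : Z0 L {w : (Unit ⊕ Fin m) ⊕ Unit → C | w (Sum.inr ()) = w (Sum.inl (Sum.inl ()))} :=
      uu1_eq _ _
    have h6 := Set.Definable.forall_of_finite (Set.Definable.union h4 h5)
    have h7 := (Set.Definable.inter (Set.Definable.inter h1 h2) (Set.Definable.inter h3 h6))
    unfold Z0
    convert h7 using 1
    ext w
    show (_ ∧ (_ ∧ ∀ v' : Unit → C, _ → _)) ↔ (_ ∧ (_ ∧ ∀ v' : Unit → C, _ ∨ _))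
    refine and_congr Iff.rfl (and_congr Iff.rfl (forall_congr' fun v' => ?_))
    have e1 : (Sum.elim w v') ∘ (Sum.map Sum.inr id : Fin m ⊕ Unit → (Unit ⊕ Fin m) ⊕ Unit) =
        Sum.elim (w ∘ Sum.inr) v' := by
      ext i
      cases i <;> rfl
    have e2 : v' = w ∘ Sum.inl ↔ v' () = w (Sum.inl ()) := by
      constructor
      · rintro rfl
        rfl
      · intro h
        ext i
        exact h
    show _ ↔ (¬ (Sum.elim w v') ∘ (Sum.map Sum.inr id : Fin m ⊕ Unit → (Unit ⊕ Fin m) ⊕ Unit) ∈ R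
      ∨ v' () = w (Sum.inl ()))
    rw [e1, e2]
    tauto
  refine ⟨{v | ∃ u' : Fin m → C, Sum.elim v u' ∈ W}, N, Set.Definable.exists_of_finite hW,
    ?_, ?_, ?_⟩
  · refine ⟨u, ⟨⟨hN, hj⟩, ?_, ?_⟩⟩
    · have : (Sum.elim (fun _ : Unit => e) u) ∘ (Sum.swap : Fin m ⊕ Unit → Unit ⊕ Fin m) =
          Sum.elim u (fun _ => e) := by
        ext i
        cases i <;> rfl
      rw [this]
      exact (hR1 _).2 rfl
    · intro v' hv'
      exact (hR1 v').1 hv'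
  · rintro v ⟨u', hw⟩
    exact hw.1.1
  · rintro v ⟨u', ⟨⟨_, h1⟩, h2, h3⟩⟩
    refine ⟨m, u', fun k => Set.mem_iUnion.2 ⟨j k, h1 k⟩, fun g hg => ?_⟩
    have e1 : (Sum.elim v u') ∘ (Sum.swap : Fin m ⊕ Unit → Unit ⊕ Fin m) = Sum.elim u' v := by
      ext i
      cases i <;> rfl
    rw [e1] at h2
    have h4 := ((hI L C (Fin m ⊕ Unit) ∅ R hR0).1 g (by rw [fx_empty]; trivial)
      (Sum.elim u' v)).2 h2
    rw [smul_elim, hg] at h4
    have h5 := h3 (g • v) h4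
    exact congrFun h5 ()

theorem st_UU1 (hR : ST_RHO) (hI : ST_CINV) : ST_UU1 := by
  intro L C _ T
  refine ⟨?_, ?_, ?_, ?_⟩
  · intro x hx
    exact ⟨1, fun _ => x, fun _ => hx, fun g hg => congrFun hg 0⟩
  · intro m u e hu hue
    choose k v hv hvu using hu
    obtain ⟨r, ⟨ε⟩⟩ := Finite.exists_equiv_fin (Σ i : Fin m, Fin (k i))
    refine ⟨r, fun i => v (ε.symm i).1 (ε.symm i).2, fun i => hv _ _, fun g hg => ?_⟩
    refine hue g ?_
    ext i
    refine hvu i g ?_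
    ext l
    have := congrFun hg (ε ⟨i, l⟩)
    have h2 : g • v (ε.symm (ε ⟨i, l⟩)).1 (ε.symm (ε ⟨i, l⟩)).2 =
      v (ε.symm (ε ⟨i, l⟩)).1 (ε.symm (ε ⟨i, l⟩)).2 := this
    rw [ε.symm_apply_apply] at h2
    exact h2
  · intro ι _ x hx
    choose P N hP hxP hPN hPU using fun i => uu1_one hR hI T (x i) (hx i)
    obtain ⟨M, hM⟩ := uu1_max T.hM.mono N
    refine ⟨{y | ∀ i, (fun _ : Unit => y i) ∈ P i}, uu1_pi ι hP, ⟨M, ?_⟩, hxP, ?_⟩
    · intro y hy i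
      exact hM i (hPN i _ (hy i))
    · intro y hy i
      exact hPU i _ (hy i)
  · intro ι _ x hx
    choose j hj using fun k => Set.mem_iUnion.1 (hx k)
    choose N hN using fun i => T.phbd (j i)
    obtain ⟨M, hM⟩ := uu1_max T.hM.mono N
    refine ⟨{y | ∀ i, (fun _ : Unit => y i) ∈ {v : Unit → C | v () ∈ T.Ph (j i)}},
      uu1_pi ι (fun i => uu1_of (T.phdef (j i))), ⟨M, ?_⟩, hj, ?_⟩
    · intro y hy i
      exact hM i (hN i (hy i))
    · intro y hy i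
      exact Set.mem_iUnion.2 ⟨j i, hy i⟩

end Pool.Agent.Helper90.TS
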