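import Pool.Agent.Helper2.TS.DAT2
import Pool.Agent.Helper2.TS.DCLF
import Pool.Agent.Helper23.TS.ACLB
import Pool.Agent.Helper23.TS.CALC
import Pool.Agent.Helper26.TS.UTOP
import Pool.Agent.Helper28.TS.FORTH
import Pool.Agent.Helper28.TS.INIT
import Pool.Agent.Helper32.TS.ACLS
import Pool.Agent.Helper32.TS.COV
import Pool.Agent.Helper32.TS.ISO
import Pool.Agent.Helper38.TS.EM
import Pool.Agent.Helper41.TS.DEF
import Pool.Agent.Helper41.TS.FSU2
import Pool.Agent.Helper41.TS.FSUP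
import Pool.Agent.Helper41.TS.TREE
import Pool.Agent.Helper44.TS.LPP
import Pool.Agent.Helper45.TS.DAT1
import Pool.Agent.Helper52.TS.UAHC
import Pool.Agent.Helper55.TS.UMOD
import Pool.Agent.Helper59.TS.TRC
import Pool.Agent.Helper61.TS.CSEMB
import Pool.Agent.Helper68.TS.LP
import Pool.Agent.Helper68.TS.ORB
import Pool.Agent.Helper72.TS.GEN
import Pool.Agent.Helper72.TS.RBAS
import Pool.Agent.Helper72.TS.RFIN
import Pool.Agent.Helper72.TS.RKB
import Pool.Agent.Helper72.TS.RUN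
import Pool.Agent.Helper74.TS.DGM
import Pool.Agent.Helper74.TS.SATM
import Pool.Agent.Helper74.TS.TYPE
import Pool.Agent.Helper85.TS.EXTS
import Pool.Agent.Helper85.TS.RDEG
import Pool.Agent.Helper85.TS.STAT
import Pool.Agent.Helper9.TS.EXT
import Pool.Agent.Helper9.TS.RKL
import Pool.Agent.Helper9.TS.TYPS
import Pool.Agent.Helper9.TS.UNI
import Pool.Agent.Helper9.TS.UNID
import Pool.Agent.Helper90.TS.CCNT
import Pool.Agent.Helper90.TS.CINV
import Pool.Agent.Helper90.TS.CINVD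
import Pool.Agent.Helper90.TS.CLRD
import Pool.Agent.Helper90.TS.CPAR
import Pool.Agent.Helper90.TS.CSAT
import Pool.Agent.Helper90.TS.CTV
import Pool.Agent.Helper90.TS.CTYPE
import Pool.Agent.Helper90.TS.RHO
import Pool.Agent.Helper90.TS.SML
import Pool.Agent.Helper90.TS.UBOOL
import Pool.Agent.Helper90.TS.UCODE
import Pool.Agent.Helper90.TS.UIMG
import Pool.Agent.Helper90.TS.USAT
import Pool.Agent.Helper90.TS.USORT
import Pool.Agent.Helper90.TS.USTAB
import Pool.Agent.Helper90.TS.UTRIV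
import Pool.Agent.Helper90.TS.UU1
import Pool.Agent.Helper91.TS.SYMM
import Pool.Agent.Helper91.TS.UOST
import Pool.Agent.Helper96.TS.CLRF
import Pool.Agent.Helper97.TS.SYM
import Pool.Agent.Helper99.TS.AHL
import Pool.Agent.Helper90.TS.Asm

/-!
# MP_79eb7e_lc: the final theorem
-/

set_option autoImplicit false

namespace Pool.Agent.Helper90.TS

theorem a_tree : ST_TREE := st_TREE
theorem a_rbas : ST_RBAS := st_RBAS
theorem a_run : ST_RUN := st_RUN a_rbas
theorem a_rfin : ST_RFIN := st_RFIN a_tree a_rbas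
theorem a_rdeg : ST_RDEG := st_RDEG a_rbas a_run
theorem a_fsu2 : ST_FSU2 := st_FSU2 st_FSUP
theorem a_cov : ST_COV := st_COV st_FSUP
theorem a_rkb : ST_RKB := st_RKB a_rfin a_rbas
theorem a_gen : ST_GEN := st_GEN a_cov a_run a_rkb a_rbas
theorem a_rkl : ST_RKL := st_RKL a_rkb st_FSUP
theorem a_unid : ST_UNID := st_UNID a_rkb a_rdeg st_TYPE a_rbas
theorem a_ext : ST_EXT := st_EXT a_unid a_gen a_rkb
theorem a_uni : ST_UNI := st_UNI a_rkb st_TYPE
theorem a_dgm : ST_DGM := st_DGM a_unid st_FSUP a_gen a_rbas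
theorem a_def : ST_DEF := st_DEF a_tree a_rbas a_run a_rdeg
theorem a_symm : ST_SYMM := st_SYMM a_dgm a_def a_fsu2 a_uni a_ext a_rkb a_rbas
theorem a_sym : ST_SYM := st_SYM a_symm st_SATM a_ext a_rkb
theorem a_calc : ST_CALC := st_CALC a_sym a_rkl a_rkb
theorem a_exts : ST_EXTS := st_EXTS a_calc a_ext st_TYPS a_rkb
theorem a_aclb : ST_ACLB := st_ACLB st_FSUP a_cov a_run a_rbas a_rkb a_rkl
theorem a_acls : ST_ACLS := st_ACLS a_aclb a_calc
theorem a_stat : ST_STAT :=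
  st_STAT a_rkb a_rdeg a_rbas a_run a_def a_gen a_unid a_aclb a_exts a_calc
theorem a_dat1 : ST_DAT1 := st_DAT1 a_rbas a_rkb a_rkl st_FSUP a_unid a_stat a_aclb
theorem a_dat2 : ST_DAT2 := st_DAT2 a_rkb a_rkl a_ext a_exts a_calc a_aclb a_acls a_stat a_uni
theorem a_lp : ST_LP := st_LP a_dat1 a_dat2 a_calc a_exts st_TYPS
theorem a_lpp : ST_LPP := st_LPP a_lp a_unid st_FSUP a_aclb a_rkb
theorem a_forth : ST_FORTH := st_FORTH a_lpp a_aclb
theorem a_orb : ST_ORB := st_ORB (st_INIT a_aclb st_TYPS) a_forth st_TYPS a_aclb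
theorem a_ahl : ST_AHL := st_AHL (st_ISO a_tree st_TYPE) (st_DCLF st_FSUP)
theorem a_cinvd : ST_CINVD := st_CINVD st_CPAR st_CCNT st_CTYPE st_CSAT st_CINV
theorem a_ctv : ST_CTV := st_CTV st_CPAR
theorem a_clrf : ST_CLRF := st_CLRF st_EM st_CLRD st_CSAT st_CPAR
theorem a_csemb : ST_CSEMB := st_CSEMB a_clrf st_CLRD st_CPAR
theorem a_rho : ST_RHO := st_RHO a_cinvd st_CPAR st_CINV
theorem a_uu1 : ST_UU1 := st_UU1 a_rho st_CINV
theorem a_ucode : ST_UCODE := st_UCODE st_CPAR st_CINV a_uu1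
theorem a_trc : ST_TRC := st_TRC a_csemb a_ucode a_uu1 st_CINV st_CCNT
theorem a_umod : ST_UMOD := st_UMOD a_ctv a_cinvd a_rho st_CINV
theorem a_uahc : ST_UAHC := st_UAHC a_csemb a_ucode a_uu1 st_CPAR st_CINV
theorem a_utop : ST_UTOP := st_UTOP st_CINV st_CPAR a_cinvd st_CTYPE a_ctv a_rho a_umod a_uu1

/-- the final theorem -/
theorem final : ST_FINAL :=
  final_asm st_CINV (st_UBOOL st_CINV) st_UIMG
    (st_USORT a_uu1 st_CPAR st_CCNT st_CINV a_cinvd) (st_USAT st_CSAT st_CINV a_uu1)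
    (st_UOST st_CTYPE a_cinvd st_CCNT) (st_USTAB st_CPAR) a_ucode a_uu1 a_trc
    (st_SML st_CTYPE) a_umod a_uahc a_utop (st_UTRIV st_CINV st_CPAR a_uu1) a_orb a_ahl

end Pool.Agent.Helper90.TS
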