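import Pool.Agent.Helper90.TS.Defs

/-!
# MP_79eb7e_lc: small library on definable sets in a context (all proved)
-/

set_option autoImplicit false

namespace Pool.Agent.Helper90.TS

variable {V G : Type} [Group G] [MulAction G V]

/-! ### stabilizers, invariance -/

theorem fx_anti {A B : Set V} (h : A ⊆ B) : Fx G B ≤ Fx G A := fun _ hg a ha => hg a (h ha)

theorem fx_empty : Fx G (∅ : Set V) = ⊤ := by
  ext g
  simp [mem_Fx]

theorem fx_union {A B : Set V} {g : G} : g ∈ Fx G (A ∪ B) ↔ g ∈ Fx G A ∧ g ∈ Fx G B := by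
  constructor
  · intro h
    exact ⟨fun a ha => h a (Or.inl ha), fun a ha => h a (Or.inr ha)⟩
  · rintro ⟨h1, h2⟩ a (ha | ha)
    · exact h1 a ha
    · exact h2 a ha

theorem fx_range {ι : Type} {a : ι → V} {g : G} : g ∈ Fx G (Set.range a) ↔ g • a = a := by
  constructor
  · intro h
    ext i
    exact h (a i) ⟨i, rfl⟩
  · rintro h _ ⟨i, rfl⟩
    exact congrFun h i

theorem fx_smul {A : Set V} {g : G} (hg : g ∈ Fx G A) {ι : Type} {a : ι → V}
    (ha : Set.range a ⊆ A) : g • a = a := by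
  ext i
  exact hg (a i) (ha ⟨i, rfl⟩)

theorem mem_tr {g : G} {A : Set V} {x : V} : x ∈ tr g A ↔ g⁻¹ • x ∈ A := by
  constructor
  · rintro ⟨a, ha, rfl⟩
    simpa using ha
  · intro h
    exact ⟨g⁻¹ • x, h, by simp⟩

theorem tr_fx {g : G} {A : Set V} (hg : g ∈ Fx G A) : tr g A = A := by
  ext x
  constructor
  · rintro ⟨a, ha, rfl⟩
    simpa [hg a ha] using ha
  · intro h
    exact ⟨x, h, hg x h⟩

theorem tr_union (g : G) (A B : Set V) : tr g (A ∪ B) = tr g A ∪ tr g B := Set.image_union ..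

theorem tr_range (g : G) {ι : Type} (a : ι → V) : tr g (Set.range a) = Set.range (g • a) := by
  ext x
  simp [tr]

theorem tr_ini (g : G) (d : ℕ → V) (n : ℕ) : tr g (ini d n) = ini (fun i => g • d i) n := by
  ext x
  constructor
  · rintro ⟨_, ⟨i, hi, rfl⟩, rfl⟩
    exact ⟨i, hi, rfl⟩
  · rintro ⟨i, hi, rfl⟩
    exact ⟨d i, ⟨i, hi, rfl⟩, rfl⟩

theorem ini_mono {d : ℕ → V} {m n : ℕ} (h : m ≤ n) : ini d m ⊆ ini d n := by
  rintro x ⟨i, hi, rfl⟩
  exact ⟨i, by omega, rfl⟩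

theorem ini_subset (d : ℕ → V) (n : ℕ) : ini d n ⊆ Set.range d := by
  rintro x ⟨i, _, rfl⟩
  exact ⟨i, rfl⟩

theorem ini_finite (d : ℕ → V) (n : ℕ) : (ini d n).Finite := by
  have : ini d n = d '' (Set.Iio n) := by
    ext x
    simp [ini]
  rw [this]
  exact (Set.finite_Iio n).image d

theorem eqv_refl (A : Set V) {ι : Type} (b : ι → V) : Eqv G A b b := ⟨1, one_mem _, one_smul _ _⟩

theorem eqv_symm {A : Set V} {ι : Type} {b b' : ι → V} (h : Eqv G A b b') : Eqv G A b' b := by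
  obtain ⟨g, hg, rfl⟩ := h
  exact ⟨g⁻¹, inv_mem hg, by simp⟩

theorem eqv_trans {A : Set V} {ι : Type} {b b' b'' : ι → V} (h : Eqv G A b b')
    (h' : Eqv G A b' b'') : Eqv G A b b'' := by
  obtain ⟨g, hg, rfl⟩ := h
  obtain ⟨k, hk, rfl⟩ := h'
  exact ⟨k * g, mul_mem hk hg, by rw [mul_smul]⟩

theorem eqv_mono {A B : Set V} (h : A ⊆ B) {ι : Type} {b b' : ι → V} (h' : Eqv G B b b') :
    Eqv G A b b' := by
  obtain ⟨g, hg, hb⟩ := h'
  exact ⟨g, fx_anti h hg, hb⟩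

theorem eqv_comp {A : Set V} {κ ι : Type} (σ : κ → ι) {b b' : ι → V} (h : Eqv G A b b') :
    Eqv G A (b ∘ σ) (b' ∘ σ) := by
  obtain ⟨g, hg, rfl⟩ := h
  exact ⟨g, hg, rfl⟩

theorem sqeq_refl (A : Set V) (d : ℕ → V) : SqEq G A d d := ⟨1, one_mem _, fun _ => one_smul _ _⟩

theorem sqeq_symm {A : Set V} {d d' : ℕ → V} (h : SqEq G A d d') : SqEq G A d' d := by
  obtain ⟨g, hg, h⟩ := h
  exact ⟨g⁻¹, inv_mem hg, fun i => by rw [← h i]; simp⟩

theorem sqeq_trans {A : Set V} {d d' d'' : ℕ → V} (h : SqEq G A d d')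
    (h' : SqEq G A d' d'') : SqEq G A d d'' := by
  obtain ⟨g, hg, h⟩ := h
  obtain ⟨k, hk, h'⟩ := h'
  exact ⟨k * g, mul_mem hk hg, fun i => by rw [mul_smul, h, h']⟩

theorem sqeq_mono {A B : Set V} (h : A ⊆ B) {d d' : ℕ → V} (h' : SqEq G B d d') :
    SqEq G A d d' := by
  obtain ⟨g, hg, hb⟩ := h'
  exact ⟨g, fx_anti h hg, hb⟩

theorem small_congr {d d' : ℕ → V} (h : SqEq G (∅ : Set V) d d') (hd : Small G d) : Small G d' := by
  intro A hA
  obtain ⟨T, hT⟩ := hd A hA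
  exact ⟨T, fun d0 d1 h0 h1 => hT d0 d1 (sqeq_trans h h0) (sqeq_trans h h1)⟩

theorem inv_iff {H : Subgroup G} {ι : Type} {D : Set (ι → V)} (h : Inv H D) {g : G} (hg : g ∈ H)
    (x : ι → V) : g • x ∈ D ↔ x ∈ D := by
  constructor
  · intro hx
    have := h g⁻¹ (inv_mem hg) _ hx
    simpa using this
  · exact h g hg x

theorem inv_mono {H K : Subgroup G} (hHK : H ≤ K) {ι : Type} {D : Set (ι → V)} (h : Inv K D) :
    Inv H D := fun g hg x hx => h g (hHK hg) x hx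

theorem smul_elim (g : G) {κ ι : Type} (x : κ → V) (y : ι → V) :
    g • Sum.elim x y = Sum.elim (g • x) (g • y) := by
  ext i
  cases i <;> rfl

theorem smul_comp (g : G) {κ ι : Type} (x : ι → V) (σ : κ → ι) : g • (x ∘ σ) = (g • x) ∘ σ := rfl

/-! ### sets definable over `A` -/

variable (X : Ctx V G)

theorem ov_mono {A B : Set V} (h : A ⊆ B) {ι : Type} {D : Set (ι → V)} (hD : X.Ov A D) :
    X.Ov B D := ⟨hD.1, inv_mono (fx_anti h) hD.2⟩

theorem ov_empty_iff {ι : Type} {D : Set (ι → V)} :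
    X.Ov (∅ : Set V) D ↔ D ∈ X.Df ι ∧ Inv (⊤ : Subgroup G) D := by
  unfold Ctx.Ov
  rw [fx_empty]

theorem ov_univ_iff {ι : Type} {D : Set (ι → V)} : X.Ov (Set.univ : Set V) D ↔ D ∈ X.Df ι := by
  constructor
  · exact fun h => h.1
  · intro h
    refine ⟨h, fun g hg x hx => ?_⟩
    have : g • x = x := by
      ext i
      exact hg (x i) (Set.mem_univ _)
    rwa [this]

section

variable {X} {A : Set V} {κ ι lam : Type} [Finite κ] [Finite ι] [Finite lam]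

theorem ov_empty : X.Ov A (∅ : Set (ι → V)) := ⟨X.empty ι, fun _ _ _ h => h.elim⟩

theorem ov_union {D E : Set (ι → V)} (hD : X.Ov A D) (hE : X.Ov A E) : X.Ov A (D ∪ E) :=
  ⟨X.union ι D hD.1 E hE.1, fun g hg x hx => hx.imp (hD.2 g hg x) (hE.2 g hg x)⟩

theorem ov_diff {D E : Set (ι → V)} (hD : X.Ov A D) (hE : X.Ov A E) : X.Ov A (D \ E) :=
  ⟨X.diff ι D hD.1 E hE.1, fun g hg x hx =>
    ⟨hD.2 g hg x hx.1, fun h => hx.2 ((inv_iff hE.2 hg x).1 h)⟩⟩

theorem ov_inter {D E : Set (ι → V)} (hD : X.Ov A D) (hE : X.Ov A E) : X.Ov A (D ∩ E) := by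
  have : D ∩ E = D \ (D \ E) := by
    ext x
    simp
  rw [this]
  exact ov_diff hD (ov_diff hD hE)

theorem ov_iUnion {J : Type} [Finite J] {F : J → Set (ι → V)} (h : ∀ j, X.Ov A (F j)) :
    X.Ov A (⋃ j, F j) := by
  classical
  have key : ∀ s : Set J, s.Finite → X.Ov A (⋃ j ∈ s, F j) := by
    intro s hs
    induction s, hs using Set.Finite.induction_on with
    | empty => simpa using ov_empty
    | @insert a s _ _ ih =>
      rw [Set.biUnion_insert]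
      exact ov_union (h a) ih
  simpa using key Set.univ Set.finite_univ

/-- translation -/
theorem ov_smul {D : Set (ι → V)} (hD : X.Ov A D) (g : G) : X.Ov (tr g⁻¹ A) {x | g • x ∈ D} := by
  refine ⟨X.smul ι D hD.1 g, fun k hk x hx => ?_⟩
  have hk' : g * k * g⁻¹ ∈ Fx G A := by
    intro a ha
    have : k • (g⁻¹ • a) = g⁻¹ • a := hk _ ⟨a, ha, rfl⟩
    rw [mul_smul, mul_smul, this]
    simp
  have := hD.2 _ hk' _ hx
  have e : (g * k * g⁻¹) • g • x = g • k • x := by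
    rw [← mul_smul, ← mul_smul]
    congr 1
    group
  rw [e] at this
  exact this

/-- section -/
theorem ov_sec {D : Set (κ ⊕ ι → V)} (hD : X.Ov A D) (a : κ → V) :
    X.Ov (A ∪ Set.range a) {x | Sum.elim a x ∈ D} := by
  refine ⟨X.sec κ ι D hD.1 a, fun g hg x hx => ?_⟩
  obtain ⟨h1, h2⟩ := fx_union.1 hg
  have := hD.2 g h1 _ hx
  rwa [smul_elim, fx_range.1 h2] at this

theorem ov_sec' {D : Set (κ ⊕ ι → V)} (hD : X.Ov A D) {a : κ → V} (ha : Set.range a ⊆ A) :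
    X.Ov A {x | Sum.elim a x ∈ D} := by
  have := ov_sec hD a
  rwa [Set.union_eq_self_of_subset_right ha] at this

/-- image under a map of variables -/
theorem ov_img {D : Set (ι → V)} (hD : X.Ov A D) (σ : κ → ι) :
    X.Ov A {y : κ → V | ∃ x ∈ D, y = x ∘ σ} := by
  refine ⟨X.img κ ι σ D hD.1, ?_⟩
  rintro g hg _ ⟨x, hx, rfl⟩
  exact ⟨g • x, hD.2 g hg x hx, rfl⟩

theorem ov_sub {D : Set (κ → V)} {B : Set (ι → V)} (hD : X.Ov A D) (hB : X.Ov A B) (σ : κ → ι) :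
    X.Ov A {x | x ∈ B ∧ x ∘ σ ∈ D} := by
  refine ⟨X.sub κ ι σ D hD.1 B hB.1, ?_⟩
  rintro g hg x ⟨hx1, hx2⟩
  exact ⟨hB.2 g hg x hx1, hD.2 g hg _ hx2⟩

theorem ov_prod {D : Set (κ → V)} {E : Set (ι → V)} (hD : X.Ov A D) (hE : X.Ov A E) :
    X.Ov A {x : κ ⊕ ι → V | x ∘ Sum.inl ∈ D ∧ x ∘ Sum.inr ∈ E} := by
  refine ⟨X.prod κ ι D hD.1 E hE.1, ?_⟩
  rintro g hg x ⟨hx1, hx2⟩
  exact ⟨hD.2 g hg _ hx1, hE.2 g hg _ hx2⟩

/-- projection to the left variables -/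
theorem ov_ex {D : Set (κ ⊕ ι → V)} (hD : X.Ov A D) :
    X.Ov A {x : κ → V | ∃ y : ι → V, Sum.elim x y ∈ D} := by
  have : {x : κ → V | ∃ y : ι → V, Sum.elim x y ∈ D} =
      {x : κ → V | ∃ z ∈ D, x = z ∘ (Sum.inl : κ → κ ⊕ ι)} := by
    ext x
    constructor
    · rintro ⟨y, hy⟩
      exact ⟨_, hy, by ext i; rfl⟩
    · rintro ⟨z, hz, rfl⟩
      refine ⟨z ∘ Sum.inr, ?_⟩
      rwa [Sum.elim_comp_inl_inr]
  rw [this]
  exact ov_img hD _

/-- reindexing -/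
theorem ov_equiv {D : Set (κ → V)} (hD : X.Ov A D) (e : κ ≃ ι) : X.Ov A {x : ι → V | x ∘ e ∈ D} := by
  have : {x : ι → V | x ∘ e ∈ D} = {y : ι → V | ∃ x ∈ D, y = x ∘ e.symm} := by
    ext x
    constructor
    · intro hx
      exact ⟨_, hx, by ext i; simp⟩
    · rintro ⟨z, hz, rfl⟩
      have : (z ∘ e.symm) ∘ e = z := by
        ext i
        simp
      simpa [this] using hz
  rw [this]
  exact ov_img hD _

/-- exchange of variables -/
theorem ov_swap {D : Set (κ ⊕ ι → V)} (hD : X.Ov A D) :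
    X.Ov A {x : ι ⊕ κ → V | Sum.elim (x ∘ Sum.inr) (x ∘ Sum.inl) ∈ D} := by
  have := ov_equiv hD (Equiv.sumComm κ ι)
  convert this using 3 with x
  constructor <;>
  · intro h
    convert h using 1
    ext i
    cases i <;> rfl

/-- projection to the right variables -/
theorem ov_exr {D : Set (κ ⊕ ι → V)} (hD : X.Ov A D) :
    X.Ov A {y : ι → V | ∃ x : κ → V, Sum.elim x y ∈ D} := by
  exact ov_ex (ov_swap hD)

/-- section on the right -/
theorem ov_secr {D : Set (κ ⊕ ι → V)} (hD : X.Ov A D) (a : ι → V) :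
    X.Ov (A ∪ Set.range a) {x : κ → V | Sum.elim x a ∈ D} := by
  exact ov_sec (ov_swap hD) a

theorem ov_secr' {D : Set (κ ⊕ ι → V)} (hD : X.Ov A D) {a : ι → V} (ha : Set.range a ⊆ A) :
    X.Ov A {x : κ → V | Sum.elim x a ∈ D} := by
  have := ov_secr hD a
  rwa [Set.union_eq_self_of_subset_right ha] at this

/-- every definable set is contained in a set definable without parameters -/
theorem ov_cover {D : Set (ι → V)} (hD : D ∈ X.Df ι) : ∃ B, X.Ov (∅ : Set V) B ∧ D ⊆ B := by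
  obtain ⟨m, E, u, hE, hi, rfl⟩ := X.param ι D hD
  refine ⟨_, ov_exr (X := X) (A := ∅) (D := E) ((ov_empty_iff X).2 ⟨hE, hi⟩), ?_⟩
  intro x hx
  exact ⟨u, hx⟩

/-- sorts of tuples -/
theorem ov_sort (x : ι → V) : ∃ B, X.Ov (∅ : Set V) B ∧ x ∈ B := by
  obtain ⟨D, h1, h2, h3⟩ := X.sort ι x
  exact ⟨D, (ov_empty_iff X).2 ⟨h1, h2⟩, h3⟩

/-- every definable set is a section of a set definable without parameters -/
theorem ov_param {D : Set (ι → V)} (hD : D ∈ X.Df ι) : ∃ (m : ℕ) (E : Set (Fin m ⊕ ι → V))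
    (u : Fin m → V), X.Ov (∅ : Set V) E ∧ D = {x | Sum.elim u x ∈ E} := by
  obtain ⟨m, E, u, hE, hi, h⟩ := X.param ι D hD
  exact ⟨m, E, u, (ov_empty_iff X).2 ⟨hE, hi⟩, h⟩

/-- equality of two variables -/
theorem ov_eq {B : Set (ι → V)} (hB : X.Ov A B) (i j : ι) : X.Ov A {x | x ∈ B ∧ x i = x j} := by
  classical
  have : {x | x ∈ B ∧ x i = x j} =
      B ∩ {y : ι → V | ∃ x ∈ B, y = x ∘ (fun k => if k = j then i else k)} := by
    ext x
    constructor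
    · rintro ⟨h1, h2⟩
      refine ⟨h1, x, h1, ?_⟩
      ext k
      by_cases hk : k = j
      · subst hk
        simp [h2]
      · simp [hk]
    · rintro ⟨h1, z, hz, rfl⟩
      refine ⟨h1, ?_⟩
      by_cases hij : i = j <;> simp [hij]
  rw [this]
  exact ov_inter hB (ov_img hB _)

/-- equality of two subtuples -/
theorem ov_eqs {B : Set (ι → V)} (hB : X.Ov A B) (σ τ : κ → ι) :
    X.Ov A {x | x ∈ B ∧ x ∘ σ = x ∘ τ} := by
  classical
  have key : ∀ s : Set κ, s.Finite → X.Ov A {x | x ∈ B ∧ ∀ k ∈ s, x (σ k) = x (τ k)} := by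
    intro s hs
    induction s, hs using Set.Finite.induction_on with
    | empty => simpa using hB
    | @insert a s _ _ ih =>
      have := ov_eq ih (σ a) (τ a)
      convert this using 3 with x
      constructor
      · rintro ⟨h1, h2⟩
        exact ⟨⟨h1, fun k hk => h2 k (Or.inr hk)⟩, h2 a (Or.inl rfl)⟩
      · rintro ⟨⟨h1, h2⟩, h3⟩
        refine ⟨h1, fun k hk => ?_⟩
        rcases hk with rfl | hk
        · exact h3
        · exact h2 k hk
  have := key Set.univ Set.finite_univ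
  convert this using 3 with x
  constructor
  · rintro ⟨h1, h2⟩
    exact ⟨h1, fun k _ => congrFun h2 k⟩
  · rintro ⟨h1, h2⟩
    exact ⟨h1, funext fun k => h2 k (Set.mem_univ k)⟩

/-- singletons -/
theorem ov_singleton (x : ι → V) : X.Ov (Set.range x) ({x} : Set (ι → V)) := by
  obtain ⟨B, hB, hx⟩ := ov_sort (X := X) x
  have h1 : X.Ov (∅ : Set V) {z : ι ⊕ ι → V | z ∘ Sum.inl ∈ B ∧ z ∘ Sum.inr ∈ B} :=
    ov_prod hB hB
  have h2 := ov_eqs h1 (Sum.inl : ι → ι ⊕ ι) Sum.inr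
  have h3 := ov_sec h2 x
  rw [Set.empty_union] at h3
  convert h3 using 1
  ext y
  simp only [Set.mem_singleton_iff, Set.mem_ofPred_eq, Sum.elim_comp_inl, Sum.elim_comp_inr]
  constructor
  · rintro rfl
    exact ⟨⟨hx, hx⟩, rfl⟩
  · rintro ⟨_, h⟩
    exact h.symm

/-- finite sets are definable -/
theorem ov_finite {D : Set (ι → V)} (hD : D.Finite) : D ∈ X.Df ι := by
  classical
  rw [← ov_univ_iff]
  induction D, hD using Set.Finite.induction_on with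
  | empty => exact ov_empty
  | @insert a s _ _ ih =>
    have : insert a s = {a} ∪ s := rfl
    rw [this]
    exact ov_union (ov_mono X (Set.subset_univ _) (ov_singleton a)) ih

/-- bounded universal quantifier -/
theorem ov_all {B : Set (κ → V)} {W D : Set (κ ⊕ ι → V)} (hB : X.Ov A B) (hW : X.Ov A W)
    (hD : X.Ov A D) :
    X.Ov A {x : κ → V | x ∈ B ∧ ∀ y : ι → V, Sum.elim x y ∈ W → Sum.elim x y ∈ D} := by
  have : {x : κ → V | x ∈ B ∧ ∀ y : ι → V, Sum.elim x y ∈ W → Sum.elim x y ∈ D} =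
      B \ {x : κ → V | ∃ y : ι → V, Sum.elim x y ∈ W \ D} := by
    ext x
    simp only [Set.mem_ofPred_eq, Set.mem_sdiff, not_exists, not_and, not_not]
  rw [this]
  exact ov_diff hB (ov_ex (ov_diff hW hD))

/-- composition of relations -/
theorem ov_comp {D : Set (κ ⊕ ι → V)} {E : Set (ι ⊕ lam → V)} (hD : X.Ov A D) (hE : X.Ov A E) :
    X.Ov A {z : κ ⊕ lam → V | ∃ y : ι → V, Sum.elim (z ∘ Sum.inl) y ∈ D ∧
      Sum.elim y (z ∘ Sum.inr) ∈ E} := by
  let σ : κ ⊕ ι → (κ ⊕ ι) ⊕ (ι ⊕ lam) := Sum.inl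
  have h1 := ov_eqs (ov_prod hD hE) (Sum.inl ∘ Sum.inr : ι → (κ ⊕ ι) ⊕ (ι ⊕ lam))
    (Sum.inr ∘ Sum.inl)
  have h2 := ov_img h1 (Sum.elim (Sum.inl ∘ Sum.inl) (Sum.inr ∘ Sum.inr) :
    κ ⊕ lam → (κ ⊕ ι) ⊕ (ι ⊕ lam))
  convert h2 using 1
  ext z
  constructor
  · rintro ⟨y, h3, h4⟩
    refine ⟨Sum.elim (Sum.elim (z ∘ Sum.inl) y) (Sum.elim y (z ∘ Sum.inr)), ⟨⟨?_, ?_⟩, ?_⟩, ?_⟩
    · simpa using h3
    · simpa using h4
    · ext i
      rfl
    · ext i
      cases i <;> rfl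
  · rintro ⟨w, ⟨⟨h3, h4⟩, h5⟩, rfl⟩
    refine ⟨w ∘ (Sum.inl ∘ Sum.inr), ?_, ?_⟩
    · convert h3 using 1
      ext i
      cases i <;> rfl
    · have : w ∘ (Sum.inl ∘ Sum.inr) = w ∘ (Sum.inr ∘ Sum.inl) := h5
      rw [this]
      convert h4 using 1
      ext i
      cases i <;> rfl

end

end Pool.Agent.Helper90.TS
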