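import Pool.Agent.Helper90.TS.Mon
import Pool.Agent.Helper90.TS.Lib

/-!
# MP_79eb7e_lc: the context of a monster model (definitions for the concrete modules)
-/

set_option autoImplicit false

namespace Pool.Agent.Helper90.TS

open FirstOrder Language

/-- the automorphism group of `C`, as a group of permutations -/
def AutG (L : FirstOrder.Language.{0, 0}) (C : Type) [L.Structure C] :
    Subgroup (Equiv.Perm C) where
  carrier := {f | ∃ g : C ≃[L] C, ∀ x, g x = f x}
  mul_mem' := by
    rintro f f' ⟨g, hg⟩ ⟨g', hg'⟩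
    exact ⟨g.comp g', fun x => by simp [hg, hg']⟩
  one_mem' := ⟨FirstOrder.Language.Equiv.refl L C, fun x => by simp⟩
  inv_mem' := by
    rintro f ⟨g, hg⟩
    refine ⟨g.symm, fun x => ?_⟩
    apply g.injective
    rw [hg (f⁻¹ x)]
    simp

theorem AutG.smul_def {L : FirstOrder.Language.{0, 0}} {C : Type} [L.Structure C]
    (g : AutG L C) (x : C) : g • x = (g : Equiv.Perm C) x := rfl

/-- every automorphism gives an element of `AutG` and conversely -/
theorem AutG.ofEquiv {L : FirstOrder.Language.{0, 0}} {C : Type} [L.Structure C]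
    (f : C ≃[L] C) : ∃ g : AutG L C, ∀ x, g • x = f x :=
  ⟨⟨f.toEquiv, f, fun _ => rfl⟩, fun _ => rfl⟩

theorem AutG.toEquiv {L : FirstOrder.Language.{0, 0}} {C : Type} [L.Structure C]
    (g : AutG L C) : ∃ f : C ≃[L] C, ∀ x, f x = g • x := g.2

/-- sets definable without parameters -/
def Z0 (L : FirstOrder.Language.{0, 0}) {C : Type} [L.Structure C] {ι : Type} (D : Set (ι → C)) :
    Prop := (∅ : Set C).Definable L D

/-- bounded sets of tuples -/
def Bdd {C : Type} (S : ℕ → Set C) {ι : Type} (D : Set (ι → C)) : Prop :=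
  ∃ N, ∀ x ∈ D, ∀ i, x i ∈ S N

/-- data of a monster model with an omega-stable set -/
structure Dt (L : FirstOrder.Language.{0, 0}) (C : Type) [L.Structure C] where
  S : ℕ → Set C
  hM : Monster L C S
  small : SmallTh L C
  stable : StableTh L C S
  Ph : ℕ → Set C
  phdef : ∀ i, (∅ : Set C).Definable₁ L (Ph i)
  phbd : ∀ i, ∃ N, Ph i ⊆ S N
  om : OmegaStableOn L (⋃ i, Ph i)
  /-- (a consequence of `phdef`) -/
  phinv : ∀ (g : AutG L C) i, ∀ x ∈ Ph i, g • x ∈ Ph i

variable {L : FirstOrder.Language.{0, 0}} {C : Type} [L.Structure C]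

/-- `Φ(C)` -/
def Dt.U0 (T : Dt L C) : Set C := ⋃ i, T.Ph i

/-- `dcl(Φ(C))` -/
def Dt.UU (T : Dt L C) : SubMulAction (AutG L C) C where
  carrier := {e | ∃ (m : ℕ) (u : Fin m → C), (∀ i, u i ∈ T.U0) ∧
    ∀ g : AutG L C, g • u = u → g • e = e}
  smul_mem' := by
    rintro g e ⟨m, u, hu, h⟩
    refine ⟨m, g • u, fun i => ?_, fun k hk => ?_⟩
    · obtain ⟨j, hj⟩ := Set.mem_iUnion.1 (hu i)
      exact Set.mem_iUnion.2 ⟨j, T.phinv g j _ hj⟩
    · have h1 : (g⁻¹ * k * g) • u = u := by
        rw [mul_smul, mul_smul, hk]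
        simp
      have h2 := h _ h1
      rw [mul_smul, mul_smul, inv_smul_eq_iff] at h2
      exact h2

/-- the elements of `dcl(Φ(C))` -/
abbrev Dt.V (T : Dt L C) : Type := ↥(T.UU)

/-- tuples of elements of `V` as tuples of elements of `C` -/
def up {T : Dt L C} {ι : Type} (x : ι → T.V) : ι → C := fun i => (x i : C)

/-- the set of tuples of `C` corresponding to a set of tuples of `V` -/
def im {T : Dt L C} {ι : Type} (D : Set (ι → T.V)) : Set (ι → C) := up '' D

/-- the definable sets of the context -/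
def Dt.Df (T : Dt L C) (ι : Type) : Set (Set (ι → T.V)) :=
  {D | (T.UU : Set C).Definable L (im D) ∧
    ∃ B : Set (ι → C), Z0 L B ∧ Bdd T.S B ∧ im D ⊆ B ∧ ∀ x ∈ B, ∀ i, x i ∈ T.UU}

end Pool.Agent.Helper90.TS
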