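import Pool.Agent.Helper90.TS.CStmts

set_option autoImplicit false

namespace Pool.Agent.Helper90.TS

open FirstOrder Language

theorem cinvd_box {L : FirstOrder.Language.{0, 0}} {C : Type} [L.Structure C] {B : Set C}
    (hB : (∅ : Set C).Definable₁ L B) (ι : Type) [Finite ι] :
    Z0 L {x : ι → C | ∀ i, x i ∈ B} := by
  have : {x : ι → C | ∀ i, x i ∈ B} = ⋂ i, {x : ι → C | x i ∈ B} := by
    ext x
    simp
  rw [this]
  unfold Z0
  refine Set.definable_iInter_of_finite fun i => ?_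
  exact (Set.Definable.preimage_comp (fun _ : Fin 1 => i) hB)

theorem cinvd_bound {C : Type} {S : ℕ → Set C} (hm : Monotone S) (hc : ∀ x, ∃ N, x ∈ S N)
    {ι : Type} [Finite ι] (u : ι → C) : ∃ N, ∀ i, u i ∈ S N := by
  choose f hf using hc
  haveI := Fintype.ofFinite ι
  refine ⟨Finset.univ.sup (fun i => f (u i)), fun i => ?_⟩
  exact hm (Finset.le_sup (f := fun i => f (u i)) (Finset.mem_univ i)) (hf (u i))

theorem st_CINVD (hP : ST_CPAR) (hN : ST_CCNT) (hT : ST_CTYPE) (hS : ST_CSAT) (hI : ST_CINV) :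
    ST_CINVD := by
  intro L C _ S hM ι _ A hA D hD hbd hinv
  obtain ⟨m, u, E, -, hE, hDE⟩ := (hP L C ι Set.univ D).1 hD
  obtain ⟨N, hN1⟩ := hbd
  obtain ⟨N', hN'⟩ := cinvd_bound hM.mono hM.cover u
  set BD : Set (ι → C) := {x | ∀ i, x i ∈ S N} with hBD
  set WU : Set (Fin m → C) := {x | ∀ i, x i ∈ S N'} with hWU
  have hBD0 : Z0 L BD := cinvd_box (hM.sortdef N) ι
  have hWU0 : Z0 L WU := cinvd_box (hM.sortdef N') (Fin m)
  have huniv : ∀ {κ : Type} {F : Set (κ → C)}, Z0 L F → (Set.univ : Set C).Definable L F :=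
    fun h => Set.Definable.mono h (Set.subset_univ _)
  set Z : Set (Fin m → C) := {u' | u' ∈ WU ∧
    ∃ x : ι → C, ¬ ((x ∈ BD ∧ Sum.elim u' x ∈ E) ↔ x ∈ D)} with hZ
  have hZd : (Set.univ : Set C).Definable L Z := by
    have h1 : (Set.univ : Set C).Definable L
        {w : Fin m ⊕ ι → C | w ∘ Sum.inr ∈ BD} := (huniv hBD0).preimage_comp Sum.inr
    have h2 : (Set.univ : Set C).Definable L
        {w : Fin m ⊕ ι → C | w ∘ Sum.inr ∈ D} := hD.preimage_comp Sum.inr
    have h3 := (((h1.inter (huniv hE)).inter h2.compl).union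
      (h2.inter (h1.inter (huniv hE)).compl))
    have h4 := (huniv hWU0).inter (Set.Definable.exists_of_finite h3)
    convert h4 using 1
    ext u'
    show (u' ∈ WU ∧ ∃ x : ι → C, _) ↔ (u' ∈ WU ∧ ∃ x : ι → C, _)
    refine and_congr_right fun _ => exists_congr fun x => ?_
    show _ ↔ (((x ∈ BD ∧ Sum.elim u' x ∈ E) ∧ ¬ x ∈ D) ∨ (x ∈ D ∧ ¬ (x ∈ BD ∧ Sum.elim u' x ∈ E)))
    tauto
  have hcnt : {Y : Set (Fin m → C) | A.Definable L Y ∧ u ∈ Y}.Countable :=
    (hN L C (Fin m) A hM.lang hA).mono fun Y hY => hY.1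
  obtain ⟨f, hf⟩ := hcnt.exists_eq_range ⟨Set.univ, Set.definable_univ, trivial⟩
  have hf1 : ∀ i, A.Definable L (f i) ∧ u ∈ f i := fun i => by
    have : f i ∈ Set.range f := ⟨i, rfl⟩
    rw [← hf] at this
    exact this
  have hex : ∃ k, ∀ x ∈ Z, ∃ i < k, x ∉ f i := by
    by_contra hcon
    push Not at hcon
    obtain ⟨u', hu'⟩ := hS L C S hM (Fin m) (fun i => Nat.casesOn i Z f) (by
      intro i
      cases i with
      | zero => exact hZd
      | succ i => exact (hf1 i).1.mono (Set.subset_univ _)) ⟨N', fun x hx => hx.1⟩ (by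
        intro k
        obtain ⟨x, hx, hxf⟩ := hcon k
        refine ⟨x, fun i hi => ?_⟩
        cases i with
        | zero => exact hx
        | succ i => exact hxf i (by omega))
    have h0 : u' ∈ Z := hu' 0
    obtain ⟨g, hg, hgu⟩ := hT L C S hM (Fin m) A hA u u' (by
      intro Y hY huY
      have : Y ∈ Set.range f := by
        rw [← hf]
        exact ⟨hY, huY⟩
      obtain ⟨i, rfl⟩ := this
      exact hu' (i + 1))
    obtain ⟨_, x, hx⟩ := h0
    apply hx
    have e1 : Sum.elim u' x ∈ E ↔ x ∈ D := by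
      rw [← hgu]
      have e2 := (hI L C (Fin m ⊕ ι) ∅ E hE).1 g⁻¹ (by rw [fx_empty]; trivial)
        (Sum.elim (g • u) x)
      rw [← e2, smul_elim, inv_smul_smul]
      have e3 : Sum.elim u (g⁻¹ • x) ∈ E ↔ g⁻¹ • x ∈ D := by
        rw [hDE]
        rfl
      rw [e3]
      exact inv_iff hinv (inv_mem hg) x
    rw [e1]
    exact ⟨fun h => h.2, fun h => ⟨hN1 x h, h⟩⟩
  obtain ⟨k, hk⟩ := hex
  set Y : Set (Fin m → C) := WU ∩ ⋂ i : Fin k, f i with hY
  have hYd : A.Definable L Y :=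
    (Set.Definable.mono hWU0 (Set.empty_subset _)).inter
      (Set.definable_iInter_of_finite fun i => (hf1 i).1)
  have huY : u ∈ Y := ⟨hN', Set.mem_iInter.2 fun i => (hf1 i).2⟩
  have hYZ : ∀ u' ∈ Y, ∀ x : ι → C, (x ∈ BD ∧ Sum.elim u' x ∈ E) ↔ x ∈ D := by
    intro u' hu' x
    by_contra hx
    obtain ⟨i, hi, hi'⟩ := hk u' ⟨hu'.1, x, hx⟩
    exact hi' (Set.mem_iInter.1 hu'.2 ⟨i, hi⟩)
  -- definition of `D` over `A`
  have h1 : A.Definable L {w : ι ⊕ Fin m → C | w ∘ Sum.inl ∈ BD} :=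
    (Set.Definable.mono hBD0 (Set.empty_subset _)).preimage_comp Sum.inl
  have h2 : A.Definable L {w : ι ⊕ Fin m → C | w ∘ Sum.inr ∈ Y} := hYd.preimage_comp Sum.inr
  have h3 : A.Definable L {w : ι ⊕ Fin m → C | w ∘ Sum.swap ∈ E} :=
    (Set.Definable.mono hE (Set.empty_subset _)).preimage_comp Sum.swap
  have h4 := Set.Definable.exists_of_finite ((h1.inter h2).inter h3)
  convert h4 using 1
  ext x
  have hsw : ∀ u' : Fin m → C, (Sum.elim x u') ∘ Sum.swap = Sum.elim u' x := by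
    intro u'
    ext i
    cases i <;> rfl
  constructor
  · intro hx
    have := (hYZ u huY x).2 hx
    exact ⟨u, ⟨this.1, huY⟩, by
      show (Sum.elim x u) ∘ Sum.swap ∈ E
      rw [hsw]
      exact this.2⟩
  · rintro ⟨u', ⟨h5, h6⟩, h7⟩
    have h8 : (Sum.elim x u') ∘ Sum.swap ∈ E := h7
    rw [hsw] at h8
    exact (hYZ u' h6 x).1 ⟨h5, h8⟩

end Pool.Agent.Helper90.TS
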