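import Mathlib

/-!
# MP_79eb7e_lc: abstract omega-stable context

`V` = the elements of `dcl(Φ)`, `G` = the automorphism group of the monster model acting on `V`,
`Df ι` = the definable (with parameters) sets of tuples indexed by `ι` (each bounded: contained in
finitely many sorts). Index types are always finite.
Proofs of all modules: /team-store/h90_tau.md
-/

set_option autoImplicit false

namespace Pool.Agent.Helper90.TS

/-- pointwise stabilizer -/
def Fx (G : Type) {V : Type} [Group G] [MulAction G V] (A : Set V) : Subgroup G where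
  carrier := {g | ∀ a ∈ A, g • a = a}
  mul_mem' := by
    intro g h hg hh a ha
    rw [mul_smul, hh a ha, hg a ha]
  one_mem' := by intro a _; exact one_smul G a
  inv_mem' := by
    intro g hg a ha
    rw [inv_smul_eq_iff, hg a ha]

theorem mem_Fx {V G : Type} [Group G] [MulAction G V] {A : Set V} {g : G} :
    g ∈ Fx G A ↔ ∀ a ∈ A, g • a = a := Iff.rfl

/-- `D` is invariant under `H` -/
def Inv {V G : Type} [Group G] [MulAction G V] (H : Subgroup G) {ι : Type} (D : Set (ι → V)) :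
    Prop := ∀ g ∈ H, ∀ x, x ∈ D → g • x ∈ D

/-- the context -/
structure Ctx (V G : Type) [Group G] [MulAction G V] where
  Df : (ι : Type) → Set (Set (ι → V))
  empty : ∀ (ι : Type) [Finite ι], (∅ : Set (ι → V)) ∈ Df ι
  union : ∀ (ι : Type) [Finite ι], ∀ D ∈ Df ι, ∀ E ∈ Df ι, D ∪ E ∈ Df ι
  diff : ∀ (ι : Type) [Finite ι], ∀ D ∈ Df ι, ∀ E ∈ Df ι, D \ E ∈ Df ι
  smul : ∀ (ι : Type) [Finite ι], ∀ D ∈ Df ι, ∀ g : G, {x | g • x ∈ D} ∈ Df ι
  /-- sections -/
  sec : ∀ (κ ι : Type) [Finite κ] [Finite ι], ∀ D ∈ Df (κ ⊕ ι), ∀ a : κ → V,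
    {x | Sum.elim a x ∈ D} ∈ Df ι
  /-- images under maps of variables (projections, permutations, diagonals) -/
  img : ∀ (κ ι : Type) [Finite κ] [Finite ι] (σ : κ → ι), ∀ D ∈ Df ι,
    {y : κ → V | ∃ x ∈ D, y = x ∘ σ} ∈ Df κ
  /-- substitution of variables inside a given definable set -/
  sub : ∀ (κ ι : Type) [Finite κ] [Finite ι] (σ : κ → ι), ∀ D ∈ Df κ, ∀ B ∈ Df ι,
    {x | x ∈ B ∧ x ∘ σ ∈ D} ∈ Df ι
  /-- products -/
  prod : ∀ (κ ι : Type) [Finite κ] [Finite ι], ∀ D ∈ Df κ, ∀ E ∈ Df ι,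
    {x : κ ⊕ ι → V | x ∘ Sum.inl ∈ D ∧ x ∘ Sum.inr ∈ E} ∈ Df (κ ⊕ ι)
  /-- every tuple lies in a set definable without parameters (its sort) -/
  sort : ∀ (ι : Type) [Finite ι] (x : ι → V), ∃ D ∈ Df ι, Inv (⊤ : Subgroup G) D ∧ x ∈ D
  /-- every definable set is a section of a set definable without parameters -/
  param : ∀ (ι : Type) [Finite ι], ∀ D ∈ Df ι, ∃ (m : ℕ) (E : Set (Fin m ⊕ ι → V)) (u : Fin m → V),
    E ∈ Df (Fin m ⊕ ι) ∧ Inv (⊤ : Subgroup G) E ∧ D = {x | Sum.elim u x ∈ E}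
  /-- countable language -/
  cnt : ∀ (ι : Type) [Finite ι], {D | D ∈ Df ι ∧ Inv (⊤ : Subgroup G) D}.Countable
  /-- saturation -/
  sat : ∀ (ι : Type) [Finite ι] (F : ℕ → Set (ι → V)), (∀ i, F i ∈ Df ι) →
    (∀ k, ∃ x, ∀ i < k, x ∈ F i) → ∃ x, ∀ i, x ∈ F i
  /-- homogeneity -/
  hom : ∀ a b : ℕ → V, (∀ n, ∀ D ∈ Df (Fin n), Inv (⊤ : Subgroup G) D →
      ((fun i : Fin n => a i) ∈ D ↔ (fun i : Fin n => b i) ∈ D)) → ∃ g : G, ∀ i, g • a i = b i
  /-- omega-stability: countably many types over countable sets -/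
  ost : ∀ A : Set V, A.Countable → ∀ n : ℕ, ∃ T : Set (Fin n → V), T.Countable ∧
    ∀ x, ∃ y ∈ T, ∃ g ∈ Fx G A, g • y = x
  /-- no order property -/
  stab : ∀ (κ ι : Type) [Finite κ] [Finite ι], ∀ D ∈ Df (κ ⊕ ι),
    ¬ ∃ (a : ℕ → κ → V) (b : ℕ → ι → V), ∀ i j, Sum.elim (a i) (b j) ∈ D ↔ i < j
  /-- elimination of imaginaries: canonical parameters -/
  code : ∀ (ι : Type) [Finite ι], ∀ D ∈ Df ι, ∃ (k : ℕ) (e : Fin k → V),
    ∀ g : G, (∀ x, g • x ∈ D ↔ x ∈ D) ↔ g • e = e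

/-- definable over `A` -/
def Ctx.Ov {V G : Type} [Group G] [MulAction G V] (X : Ctx V G) (A : Set V) {ι : Type}
    (D : Set (ι → V)) : Prop := D ∈ X.Df ι ∧ Inv (Fx G A) D

/-- Morley rank at least `α` -/
def Ctx.Rge {V G : Type} [Group G] [MulAction G V] (X : Ctx V G) {ι : Type} (α : Ordinal.{0}) :
    Set (ι → V) → Prop :=
  WellFoundedLT.fix (motive := fun _ => Set (ι → V) → Prop)
    (fun α ih D => D ∈ X.Df ι ∧ D.Nonempty ∧ ∀ (β : Ordinal.{0}) (h : β < α),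
      ∃ F : ℕ → Set (ι → V), (∀ i, F i ⊆ D) ∧ (∀ i j, i ≠ j → Disjoint (F i) (F j)) ∧
        ∀ i, ih β h (F i)) α

theorem rge_iff {V G : Type} [Group G] [MulAction G V] (X : Ctx V G) {ι : Type} (α : Ordinal.{0})
    (D : Set (ι → V)) :
    X.Rge α D ↔ D ∈ X.Df ι ∧ D.Nonempty ∧ ∀ β < α, ∃ F : ℕ → Set (ι → V),
      (∀ i, F i ⊆ D) ∧ (∀ i j, i ≠ j → Disjoint (F i) (F j)) ∧ ∀ i, X.Rge β (F i) := by
  unfold Ctx.Rge
  rw [WellFoundedLT.fix_eq]

/-- Morley rank of the type of `b` over `A` -/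
noncomputable def Ctx.rk {V G : Type} [Group G] [MulAction G V] (X : Ctx V G) (A : Set V)
    {ι : Type} (b : ι → V) : Ordinal.{0} :=
  sInf {α | ∃ D : Set (ι → V), X.Ov A D ∧ b ∈ D ∧ ¬ X.Rge (Order.succ α) D}

/-- degree one -/
def Ctx.Dg1 {V G : Type} [Group G] [MulAction G V] (X : Ctx V G) {ι : Type} (α : Ordinal.{0})
    (D : Set (ι → V)) : Prop :=
  X.Rge α D ∧ ¬ X.Rge (Order.succ α) D ∧
    ∀ E F, E ⊆ D → F ⊆ D → Disjoint E F → X.Rge α E → X.Rge α F → False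

/-- same type over `A` -/
def Eqv (G : Type) {V : Type} [Group G] [MulAction G V] (A : Set V) {ι : Type} (b b' : ι → V) :
    Prop := ∃ g ∈ Fx G A, g • b = b'

/-- algebraic closure -/
def acl (G : Type) {V : Type} [Group G] [MulAction G V] (A : Set V) : Set V :=
  {e | {e' | ∃ g ∈ Fx G A, g • e = e'}.Finite}

/-- translate of a set of elements -/
def tr {V G : Type} [Group G] [MulAction G V] (g : G) (A : Set V) : Set V :=
  (fun a => g • a) '' A

/-- independence of sets: `B` and `C` are independent over `A` -/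
def SI {V G : Type} [Group G] [MulAction G V] (X : Ctx V G) (A B C : Set V) : Prop :=
  ∀ (n : ℕ) (b : Fin n → V), Set.range b ⊆ B → X.rk (A ∪ C) b = X.rk A b

/-- first `n` elements of a sequence -/
def ini {V : Type} (d : ℕ → V) (n : ℕ) : Set V := {x | ∃ i < n, d i = x}

/-- two sequences have the same type over `A` -/
def SqEq (G : Type) {V : Type} [Group G] [MulAction G V] (A : Set V) (d d' : ℕ → V) : Prop :=
  ∃ g ∈ Fx G A, ∀ i, g • d i = d' i

/-- countably many types of pairs of conjugates of `d` over finite sets -/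
def Small (G : Type) {V : Type} [Group G] [MulAction G V] (d : ℕ → V) : Prop :=
  ∀ A : Set V, A.Finite → ∃ T : ℕ → (ℕ → V) × (ℕ → V), ∀ d0 d1 : ℕ → V,
    SqEq G (∅ : Set V) d d0 → SqEq G (∅ : Set V) d d1 →
      ∃ k, ∃ g ∈ Fx G A, (∀ i, g • (T k).1 i = d0 i) ∧ ∀ i, g • (T k).2 i = d1 i

/-- `b` is stationary over `A` -/
def Sta {V G : Type} [Group G] [MulAction G V] (X : Ctx V G) (A : Set V) {ι : Type} (b : ι → V) :
    Prop := ∃ D : Set (ι → V), X.Ov A D ∧ b ∈ D ∧ X.Dg1 (X.rk A b) D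

/-- saturated countable sets -/
def Sat (G : Type) {V : Type} [Group G] [MulAction G V] (M : Set V) : Prop :=
  M.Countable ∧ ∀ A : Set V, A ⊆ M → A.Finite → ∀ (ι : Type) [Finite ι] (b : ι → V),
    ∃ b', Set.range b' ⊆ M ∧ Eqv G A b b'

/-- infinitely often, a realization of the stationary type of `b` over `A`, independent of the
first `n` elements of `d`, depends on `d` -/
structure Dat {V G : Type} [Group G] [MulAction G V] (X : Ctx V G) (A : Set V) {ι : Type}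
    (b : ι → V) (d : ℕ → V) : Prop where
  fin : A.Finite
  sta : Sta X A b
  inf : ∀ N, ∃ n, N ≤ n ∧ ∃ b', Eqv G A b b' ∧ X.rk (A ∪ ini d n) b' = X.rk A b ∧
    X.rk (A ∪ Set.range d) b' ≠ X.rk A b

end Pool.Agent.Helper90.TS
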