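import Mathlib

/-!
# MP_79eb7e_lc: definitions for the final theorem

`L` is a first-order language, `C` an `L`-structure (the monster model of `T = Th(C)`).
A many-sorted monster model `ℭ = ℭ^eq` is presented as a structure `C` which is the union of an
increasing sequence `S 0 ⊆ S 1 ⊆ ...` of sets definable without parameters (`S N` = the union of
the first `N` sorts; for a one-sorted theory all `S N` are equal to `C`).
-/

set_option autoImplicit false

namespace Pool.Agent.Helper90.TS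

open FirstOrder Language

/-- The complete type of the tuple `c` over `A`, as the set of all `A`-definable sets which
contain `c`. -/
def tp (L : FirstOrder.Language.{0, 0}) {C : Type} [L.Structure C] (A : Set C) {n : ℕ} (c : Fin n → C) :
    Set (Set (Fin n → C)) := {D | A.Definable L D ∧ c ∈ D}

/-- `C` is a monster model (in a countable language) which eliminates imaginaries:
`ℵ₁`-saturated and strongly `ℵ₁`-homogeneous in the many-sorted sense, and every definable set has
a canonical parameter. -/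
structure Monster (L : FirstOrder.Language.{0, 0}) (C : Type) [L.Structure C] (S : ℕ → Set C) : Prop where
  /-- the language is countable -/
  lang : Countable L.Symbols
  /-- the sorts -/
  mono : Monotone S
  cover : ∀ x : C, ∃ N, x ∈ S N
  sortdef : ∀ N, (∅ : Set C).Definable₁ L (S N)
  /-- `ℵ₁`-saturation -/
  sat : ∀ (N n : ℕ) (F : ℕ → Set (Fin n → C)), (∀ i, (Set.univ : Set C).Definable L (F i)) →
    (∀ k, ∃ x, (∀ j, x j ∈ S N) ∧ ∀ i < k, x ∈ F i) → ∃ x, (∀ j, x j ∈ S N) ∧ ∀ i, x ∈ F i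
  /-- strong `ℵ₁`-homogeneity -/
  hom : ∀ a b : ℕ → C, (∀ n, tp L ∅ (fun i : Fin n => a i) = tp L ∅ (fun i : Fin n => b i)) →
    ∃ g : C ≃[L] C, ∀ i, g (a i) = b i
  /-- elimination of imaginaries (`C = C^eq`): canonical parameters of definable sets -/
  code : ∀ (N n : ℕ) (D : Set (Fin n → C)), (Set.univ : Set C).Definable L D →
    (∀ x ∈ D, ∀ j, x j ∈ S N) →
    ∃ (k : ℕ) (e : Fin k → C), ∀ g : C ≃[L] C, (∀ x, g ∘ x ∈ D ↔ x ∈ D) ↔ g ∘ e = e

/-- `T` is small: there are countably many types over the empty set. -/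
def SmallTh (L : FirstOrder.Language.{0, 0}) (C : Type) [L.Structure C] : Prop :=
  ∀ n : ℕ, {p | ∃ c : Fin n → C, p = tp L ∅ c}.Countable

/-- `T` is stable: no formula has the order property. -/
def StableTh (L : FirstOrder.Language.{0, 0}) (C : Type) [L.Structure C] (S : ℕ → Set C) : Prop :=
  ∀ (N m n : ℕ) (D : Set (Fin m ⊕ Fin n → C)), (∅ : Set C).Definable L D →
    ¬ ∃ (a : ℕ → Fin m → C) (b : ℕ → Fin n → C), (∀ i k, a i k ∈ S N) ∧ (∀ j k, b j k ∈ S N) ∧
      ∀ i j, Sum.elim (a i) (b j) ∈ D ↔ i < j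

/-- The theory induced on `U` is omega-stable: over every countable subset of `U` there are
countably many types of tuples of elements of `U`. -/
def OmegaStableOn (L : FirstOrder.Language.{0, 0}) {C : Type} [L.Structure C] (U : Set C) : Prop :=
  ∀ A : Set C, A ⊆ U → A.Countable → ∀ n : ℕ,
    {p | ∃ u : Fin n → C, (∀ i, u i ∈ U) ∧ p = tp L A u}.Countable

/-- Algebraic closure (in `C = C^eq`). -/
def Acl (L : FirstOrder.Language.{0, 0}) {C : Type} [L.Structure C] (a : Set C) : Set C :=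
  {e | ∃ D : Set C, a.Definable₁ L D ∧ D.Finite ∧ e ∈ D}

/-- `f ∈ Aut(Q/a)` -/
def AutQ (L : FirstOrder.Language.{0, 0}) {C : Type} [L.Structure C] (Q a : Set C) (f : C ≃[L] C) : Prop :=
  f '' Q = Q ∧ ∀ x ∈ a, f x = x

/-- `Q` is almost homogeneous over `a`: finite tuples of elements of `Q` with the same strong type
over `a` (= the same type over `acl(a)`) are conjugate under `Aut(Q/a)`. -/
def AlmostHom (L : FirstOrder.Language.{0, 0}) {C : Type} [L.Structure C] (Q a : Set C) : Prop :=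
  ∀ (k : ℕ) (b b' : Fin k → C), (∀ i, b i ∈ Q) → (∀ i, b' i ∈ Q) →
    tp L (Acl L a) b = tp L (Acl L a) b' → ∃ f : C ≃[L] C, AutQ L Q a f ∧ f ∘ b = b'

/-- `S_n(Q)`: the space of complete `n`-types over `Q`. -/
def Typ (L : FirstOrder.Language.{0, 0}) {C : Type} [L.Structure C] (Q : Set C) (n : ℕ) : Type :=
  {p : Set (Set (Fin n → C)) // ∃ c : Fin n → C, p = tp L Q c}

/-- The Stone topology. -/
instance (L : FirstOrder.Language.{0, 0}) {C : Type} [L.Structure C] (Q : Set C) (n : ℕ) :
    TopologicalSpace (Typ L Q n) :=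
  TopologicalSpace.generateFrom {s | ∃ D : Set (Fin n → C), Q.Definable L D ∧ s = {p | D ∈ p.1}}

/-- The type `p` over `Q = U(M*)` is good: it is realized in some countable `N ≺ C` with
`U(N) = Q`. -/
def Good (L : FirstOrder.Language.{0, 0}) {C : Type} [L.Structure C] (U Q : Set C) {n : ℕ} (p : Typ L Q n) :
    Prop :=
  ∃ N : L.ElementarySubstructure C, (N : Set C).Countable ∧ (N : Set C) ∩ U = Q ∧
    ∃ c : Fin n → C, (∀ i, c i ∈ N) ∧ p.1 = tp L Q c

/-- The orbit of `p` under `Aut(Q/a)` (the class of `p` modulo `∼_a`); `f(tp(c/Q)) = tp(f(c)/Q)`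
for `f ∈ Aut(Q/a)`. -/
def Orb (L : FirstOrder.Language.{0, 0}) {C : Type} [L.Structure C] {Q : Set C} (a : Set C) {n : ℕ}
    (p : Typ L Q n) : Set (Typ L Q n) :=
  {q | ∃ f : C ≃[L] C, AutQ L Q a f ∧ ∃ c : Fin n → C, p.1 = tp L Q c ∧ q.1 = tp L Q (f ∘ c)}

/-- `p` is `τ`-stable, `τ`-based on `a`: its orbit under `Aut(Q/a)` is co-meager in its closure. -/
def TauBased (L : FirstOrder.Language.{0, 0}) {C : Type} [L.Structure C] {Q : Set C} (a : Set C) {n : ℕ}
    (p : Typ L Q n) : Prop :=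
  ((fun x : closure (Orb L a p) => (x : Typ L Q n)) ⁻¹' Orb L a p) ∈
    residual (closure (Orb L a p))

/-- The final theorem: good types are `τ`-stable if `Q` is almost homogeneous. -/
def ST_FINAL : Prop := ∀ (L : FirstOrder.Language.{0, 0}) (C : Type) [L.Structure C] (S : ℕ → Set C),
  Monster L C S → SmallTh L C → StableTh L C S →
  ∀ Φ : ℕ → Set C, (∀ i, (∅ : Set C).Definable₁ L (Φ i)) → (∀ i, ∃ N, Φ i ⊆ S N) →
  OmegaStableOn L (⋃ i, Φ i) →
  ∀ M : L.ElementarySubstructure C, (M : Set C).Countable →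
  ∀ Q : Set C, Q = (M : Set C) ∩ ⋃ i, Φ i →
  ∀ a : Set C, a ⊆ Q → a.Finite → AlmostHom L Q a →
  ∀ (n : ℕ) (p : Typ L Q n), Good L (⋃ i, Φ i) Q p → TauBased L a p

end Pool.Agent.Helper90.TS
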