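import Pool.Agent.Helper90.TS.CStmts

set_option autoImplicit false

namespace Pool.Agent.Helper90.TS

open FirstOrder Language

theorem st_UTRIV (hI : ST_CINV) (hP : ST_CPAR) (hU : ST_UU1) : ST_UTRIV := by
  intro L C _ T Q a hQ n c htr p hp
  obtain ⟨u1, u2, u3, u4⟩ := hU L C T
  have hA : ∀ (f : C ≃[L] C), AutQ L Q a f → ∀ c1 : Fin n → C, p.1 = tp L Q c1 →
      tp L Q (f ∘ c1) = p.1 := by
    intro f hf c1 hc1
    obtain ⟨g, hg⟩ := AutG.ofEquiv f
    have hfc : ∀ c2 : Fin n → C, f ∘ c2 = g • c2 := by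
      intro c2
      ext i
      exact (hg (c2 i)).symm
    have htrQ : tr g⁻¹ Q = Q := by
      ext x
      rw [mem_tr, inv_inv]
      constructor
      · intro h
        rw [← hf.1] at h
        obtain ⟨y, hy, hyx⟩ := h
        rw [← hg] at hyx
        have := MulAction.injective g hyx
        exact this ▸ hy
      · intro h
        rw [← hf.1]
        exact ⟨x, h, (hg x).symm⟩
    ext D
    have key : ∀ D : Set (Fin n → C), Q.Definable L D → (f ∘ c1 ∈ D ↔ c ∈ D) := by
      intro D hD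
      rw [hfc]
      have hD1 : Q.Definable L {x | g • x ∈ D} := by
        have := (hI L C (Fin n) Q D hD).2 g
        rwa [htrQ] at this
      have h1 : c1 ∈ {x : Fin n → C | g • x ∈ D} ↔ c ∈ {x : Fin n → C | g • x ∈ D} := by
        have e1 : {x : Fin n → C | g • x ∈ D} ∈ tp L Q c1 ↔
            {x : Fin n → C | g • x ∈ D} ∈ tp L Q c := by rw [← hc1, hp]
        constructor
        · intro h
          exact (e1.1 ⟨hD1, h⟩).2
        · intro h
          exact (e1.2 ⟨hD1, h⟩).2
      have h2 : g • c1 ∈ D ↔ g • c ∈ D := h1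
      rw [h2]
      obtain ⟨m, b, E, hb, hE, hDE⟩ := (hP L C (Fin n) Q D).1 hD
      rw [hDE]
      show Sum.elim b (g • c) ∈ E ↔ Sum.elim b c ∈ E
      have h3 := htr g m {w | w ∘ Sum.swap ∈ E} b (Set.Definable.preimage_comp Sum.swap hE)
        (fun i => u1 (hQ (hb ⟨i, rfl⟩)))
      have h4 : ∀ c3 : Fin n → C, (Sum.elim c3 b) ∘ (Sum.swap : Fin m ⊕ Fin n → Fin n ⊕ Fin m) =
          Sum.elim b c3 := by
        intro c3
        ext i
        cases i <;> rfl
      change (Sum.elim (g • c) b) ∘ Sum.swap ∈ E ↔ (Sum.elim c b) ∘ Sum.swap ∈ E at h3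
      rwa [h4, h4] at h3
    rw [hp]
    constructor
    · rintro ⟨h1, h2⟩
      exact ⟨h1, (key D h1).1 h2⟩
    · rintro ⟨h1, h2⟩
      exact ⟨h1, (key D h1).2 h2⟩
  have hOrb : ∀ q ∈ Orb L a p, q = p := by
    rintro q ⟨f, hf, c1, hc1, hq⟩
    apply Subtype.ext
    rw [hq]
    exact hA f hf c1 hc1
  have hcl : closure (Orb L a p) ⊆ Orb L a p := by
    intro q hq
    have hne : ∀ D : Set (Fin n → C), D ∈ q.1 → D ∈ p.1 := by
      intro D hD
      obtain ⟨c', hc'⟩ := q.2
      have hDd : Q.Definable L D := by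
        rw [hc'] at hD
        exact hD.1
      have hopen : IsOpen {r : Typ L Q n | D ∈ r.1} :=
        TopologicalSpace.isOpen_generateFrom_of_mem ⟨D, hDd, rfl⟩
      obtain ⟨r, hr1, hr2⟩ := mem_closure_iff.1 hq _ hopen hD
      rw [hOrb r hr2] at hr1
      exact hr1
    have hqp : q = p := by
      apply Subtype.ext
      ext D
      refine ⟨hne D, fun hD => ?_⟩
      obtain ⟨c', hc'⟩ := q.2
      rw [hp] at hD
      rw [hc']
      refine ⟨hD.1, ?_⟩
      by_contra hcon
      have h1 : Dᶜ ∈ q.1 := by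
        rw [hc']
        exact ⟨hD.1.compl, hcon⟩
      have h2 := hne _ h1
      rw [hp] at h2
      exact h2.2 hD.2
    rw [hqp]
    refine ⟨FirstOrder.Language.Equiv.refl L C, ⟨?_, fun x _ => rfl⟩, c, hp, hp⟩
    simp
  unfold TauBased
  have : ((fun x : closure (Orb L a p) => (x : Typ L Q n)) ⁻¹' Orb L a p) = Set.univ := by
    ext x
    exact ⟨fun _ => trivial, fun _ => hcl x.2⟩
  rw [this]
  exact Filter.univ_mem

end Pool.Agent.Helper90.TS
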